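import Pool.Agent.T6.H61.QP.Cover

open MeasureTheory Set Metric
open scoped ENNReal NNReal Topology

namespace H61.QP

/-- `m` is conformal for the rotation by `β` with (logarithmic) Jacobian `G`. -/
def Conf (β : ℝ) (G : UnitAddCircle → ℝ) (m : Measure UnitAddCircle) : Prop :=
  ∀ f : UnitAddCircle → ℝ≥0∞, Measurable f →
    ∫⁻ x, f (x - (β : UnitAddCircle)) ∂m = ∫⁻ x, f x * ENNReal.ofReal (Real.exp (G x)) ∂m

/-- Birkhoff sums. -/
noncomputable def BS (β : ℝ) (G : UnitAddCircle → ℝ) (n : ℕ) (x : UnitAddCircle) : ℝ :=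
  ∑ j ∈ Finset.range n, G (x + (((j : ℝ) * β : ℝ) : UnitAddCircle))

theorem BS_succ (β : ℝ) (G : UnitAddCircle → ℝ) (n : ℕ) (x : UnitAddCircle) :
    BS β G (n + 1) x = BS β G n x + G (x + (((n : ℝ) * β : ℝ) : UnitAddCircle)) := by
  rw [BS, BS, Finset.sum_range_succ]

theorem continuous_BS {β : ℝ} {G : UnitAddCircle → ℝ} (hG : Continuous G) (n : ℕ) :
    Continuous (BS β G n) := by
  unfold BS
  fun_prop

theorem Conf.iter {β : ℝ} {G : UnitAddCircle → ℝ} (hG : Continuous G)
    {m : Measure UnitAddCircle} (h : Conf β G m) (n : ℕ) (f : UnitAddCircle → ℝ≥0∞)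
    (hf : Measurable f) :
    ∫⁻ x, f (x - (((n : ℝ) * β : ℝ) : UnitAddCircle)) ∂m =
      ∫⁻ x, f x * ENNReal.ofReal (Real.exp (BS β G n x)) ∂m := by
  induction n generalizing f with
  | zero => simp [BS]
  | succ n ih =>
    have e1 : ∀ x : UnitAddCircle, f (x - ((((n + 1 : ℕ) : ℝ) * β : ℝ) : UnitAddCircle)) =
        (fun y => f (y - (((n : ℝ) * β : ℝ) : UnitAddCircle))) (x - (β : UnitAddCircle)) := by
      intro x
      simp only
      congr 1
      have : (((n + 1 : ℕ) : ℝ) * β : ℝ) = β + (n : ℝ) * β := by push_cast; ring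
      rw [this, AddCircle.coe_add]
      abel
    simp_rw [e1]
    rw [h (fun y => f (y - (((n : ℝ) * β : ℝ) : UnitAddCircle)))
      (hf.comp (measurable_id.sub_const _))]
    have e2 : ∀ x : UnitAddCircle, f (x - (((n : ℝ) * β : ℝ) : UnitAddCircle)) *
        ENNReal.ofReal (Real.exp (G x)) =
        (fun y => f y * ENNReal.ofReal (Real.exp (G (y + (((n : ℝ) * β : ℝ) : UnitAddCircle)))))
          (x - (((n : ℝ) * β : ℝ) : UnitAddCircle)) := by
      intro x
      simp only [sub_add_cancel]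
    simp_rw [e2]
    rw [ih (fun y => f y * ENNReal.ofReal
      (Real.exp (G (y + (((n : ℝ) * β : ℝ) : UnitAddCircle))))) (by fun_prop)]
    congr 1
    ext x
    rw [BS_succ, Real.exp_add, ENNReal.ofReal_mul (Real.exp_pos _).le]
    ring

theorem Conf.ball {β : ℝ} {G : UnitAddCircle → ℝ} (hG : Continuous G)
    {m : Measure UnitAddCircle} (h : Conf β G m) (n : ℕ) (x : UnitAddCircle) (r : ℝ) :
    m (closedBall (x + (((n : ℝ) * β : ℝ) : UnitAddCircle)) r) =
      ∫⁻ y in closedBall x r, ENNReal.ofReal (Real.exp (BS β G n y)) ∂m := by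
  have h1 := h.iter hG n ((closedBall x r).indicator 1)
    (measurable_one.indicator measurableSet_closedBall)
  have h2 : ∀ y : UnitAddCircle, (closedBall x r).indicator (1 : UnitAddCircle → ℝ≥0∞)
      (y - (((n : ℝ) * β : ℝ) : UnitAddCircle)) =
      (closedBall (x + (((n : ℝ) * β : ℝ) : UnitAddCircle)) r).indicator 1 y := by
    intro y
    have : (y - (((n : ℝ) * β : ℝ) : UnitAddCircle)) ∈ closedBall x r ↔
        y ∈ closedBall (x + (((n : ℝ) * β : ℝ) : UnitAddCircle)) r := by
      rw [mem_closedBall, mem_closedBall, dist_eq_norm, dist_eq_norm]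
      have : y - (((n : ℝ) * β : ℝ) : UnitAddCircle) - x =
        y - (x + (((n : ℝ) * β : ℝ) : UnitAddCircle)) := by abel
      rw [this]
    by_cases hy : y ∈ closedBall (x + (((n : ℝ) * β : ℝ) : UnitAddCircle)) r
    · rw [indicator_of_mem hy, indicator_of_mem (this.2 hy)]; rfl
    · rw [indicator_of_notMem hy, indicator_of_notMem (fun hh => hy (this.1 hh))]
  simp_rw [h2] at h1
  rw [lintegral_indicator_one measurableSet_closedBall] at h1
  rw [h1, ← lintegral_indicator measurableSet_closedBall]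
  congr 1
  ext y
  by_cases hy : y ∈ closedBall x r
  · rw [indicator_of_mem hy, indicator_of_mem hy]; simp
  · rw [indicator_of_notMem hy, indicator_of_notMem hy]; simp

/-- distortion -/
theorem BS_dist {β : ℝ} {G : UnitAddCircle → ℝ} {L : ℝ≥0} (hL : LipschitzWith L G)
    {q : ℕ} (hq : 0 < q) {n : ℕ} (hn : n ≤ q) {x y : UnitAddCircle} (hxy : dist y x ≤ 2 / q) :
    |BS β G n y - BS β G n x| ≤ 2 * L := by
  unfold BS
  rw [← Finset.sum_sub_distrib]
  refine (Finset.abs_sum_le_sum_abs _ _).trans ?_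
  have hq' : (0 : ℝ) < q := by exact_mod_cast hq
  calc ∑ i ∈ Finset.range n, |G (y + (((i : ℝ) * β : ℝ) : UnitAddCircle)) -
        G (x + (((i : ℝ) * β : ℝ) : UnitAddCircle))|
      ≤ ∑ i ∈ Finset.range n, (L : ℝ) * (2 / q) := by
        apply Finset.sum_le_sum
        intro i _
        rw [← Real.dist_eq]
        refine (hL.dist_le_mul _ _).trans ?_
        rw [dist_add_right]
        exact mul_le_mul_of_nonneg_left hxy L.2
    _ = n * (L * (2 / q)) := by simp
    _ ≤ q * (L * (2 / q)) := by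
        apply mul_le_mul_of_nonneg_right _ (by positivity)
        exact_mod_cast hn
    _ = 2 * L := by field_simp

theorem Conf.ball_bounds {β : ℝ} {G : UnitAddCircle → ℝ} {L : ℝ≥0} (hL : LipschitzWith L G)
    {m : Measure UnitAddCircle} (h : Conf β G m)
    {q : ℕ} (hq : 0 < q) {n : ℕ} (hn : n ≤ q) (x : UnitAddCircle) :
    m (closedBall (x + (((n : ℝ) * β : ℝ) : UnitAddCircle)) (2 / q)) ≤
      ENNReal.ofReal (Real.exp (2 * L)) * (ENNReal.ofReal (Real.exp (BS β G n x)) *
        m (closedBall x (2 / q))) ∧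
    ENNReal.ofReal (Real.exp (BS β G n x)) * m (closedBall x (2 / q)) ≤
      ENNReal.ofReal (Real.exp (2 * L)) *
        m (closedBall (x + (((n : ℝ) * β : ℝ) : UnitAddCircle)) (2 / q)) := by
  rw [h.ball hL.continuous n x (2 / q)]
  constructor
  · rw [← mul_assoc, ← ENNReal.ofReal_mul (Real.exp_pos _).le, ← Real.exp_add]
    calc ∫⁻ y in closedBall x (2 / q), ENNReal.ofReal (Real.exp (BS β G n y)) ∂m
        ≤ ∫⁻ y in closedBall x (2 / q), ENNReal.ofReal (Real.exp (2 * L + BS β G n x)) ∂m := by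
          apply setLIntegral_mono measurable_const
          intro y hy
          apply ENNReal.ofReal_le_ofReal
          apply Real.exp_le_exp.2
          have := (abs_le.1 (BS_dist (β := β) hL hq hn (mem_closedBall.1 hy))).2
          linarith
      _ = _ := by rw [setLIntegral_const]
  · rw [← lintegral_const_mul' _ _ ENNReal.ofReal_ne_top]
    calc ENNReal.ofReal (Real.exp (BS β G n x)) * m (closedBall x (2 / q))
        = ∫⁻ y in closedBall x (2 / q), ENNReal.ofReal (Real.exp (BS β G n x)) ∂m := by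
          rw [setLIntegral_const]
      _ ≤ _ := by
          apply setLIntegral_mono
          · have := (continuous_BS (β := β) hL.continuous n).measurable
            fun_prop
          intro y hy
          rw [← ENNReal.ofReal_mul (Real.exp_pos _).le, ← Real.exp_add]
          apply ENNReal.ofReal_le_ofReal
          apply Real.exp_le_exp.2
          have := (abs_le.1 (BS_dist (β := β) hL hq hn (mem_closedBall.1 hy))).1
          linarith

/-- sum of measures of balls is at most seven times the mass. -/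
theorem sum_balls_le {β : ℝ} {q : ℕ} (hq : 0 < q) {P : ℤ} (hc : IsCoprime P (q : ℤ))
    (hβ : |β - P / q| ≤ 1 / (q : ℝ) ^ 2) (x : UnitAddCircle) (m : Measure UnitAddCircle)
    (J : Finset ℕ) (hJ : J ⊆ Finset.range q) (U : Set UnitAddCircle) (hU : MeasurableSet U)
    (hJU : ∀ j ∈ J, closedBall (x + (((j : ℝ) * β : ℝ) : UnitAddCircle)) (2 / q) ⊆ U) :
    ∑ j ∈ J, m (closedBall (x + (((j : ℝ) * β : ℝ) : UnitAddCircle)) (2 / q)) ≤ 7 * m U := by
  calc ∑ j ∈ J, m (closedBall (x + (((j : ℝ) * β : ℝ) : UnitAddCircle)) (2 / q))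
      = ∑ j ∈ J, ∫⁻ y, (closedBall (x + (((j : ℝ) * β : ℝ) : UnitAddCircle)) (2 / q)).indicator 1 y
          ∂m := by
        apply Finset.sum_congr rfl
        intro j _
        rw [lintegral_indicator_one measurableSet_closedBall]
    _ = ∫⁻ y, ∑ j ∈ J, (closedBall (x + (((j : ℝ) * β : ℝ) : UnitAddCircle)) (2 / q)).indicator
          (1 : UnitAddCircle → ℝ≥0∞) y ∂m := by
        rw [lintegral_finsetSum]
        intro j _
        exact measurable_one.indicator measurableSet_closedBall
    _ ≤ ∫⁻ y, 7 * U.indicator (1 : UnitAddCircle → ℝ≥0∞) y ∂m := by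
        apply lintegral_mono
        intro y
        simp only
        by_cases hy : y ∈ U
        · rw [indicator_of_mem hy]
          calc ∑ j ∈ J, (closedBall (x + (((j : ℝ) * β : ℝ) : UnitAddCircle)) (2 / q)).indicator
                (1 : UnitAddCircle → ℝ≥0∞) y
              = ∑ j ∈ J, if dist y (x + (((j : ℝ) * β : ℝ) : UnitAddCircle)) ≤ 2 / q then
                (1 : ℝ≥0∞) else 0 := by
                apply Finset.sum_congr rfl
                intro j _
                simp [indicator, mem_closedBall]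
            _ = ((J.filter (fun j : ℕ => dist y (x + (((j : ℝ) * β : ℝ) : UnitAddCircle)) ≤
                  2 / q)).card : ℝ≥0∞) := by
                rw [Finset.sum_ite]
                simp
            _ ≤ ((((Finset.range q).filter (fun j : ℕ => dist y
                  (x + (((j : ℝ) * β : ℝ) : UnitAddCircle)) ≤ 2 / q)).card : ℕ) : ℝ≥0∞) := by
                exact_mod_cast Finset.card_le_card (Finset.filter_subset_filter _ hJ)
            _ ≤ 7 := by exact_mod_cast mult hq hc hβ x y
            _ = 7 * (1 : UnitAddCircle → ℝ≥0∞) y := by simp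
        · have : ∀ j ∈ J, (closedBall (x + (((j : ℝ) * β : ℝ) : UnitAddCircle)) (2 / q)).indicator
              (1 : UnitAddCircle → ℝ≥0∞) y = 0 := by
            intro j hj
            rw [indicator_of_notMem]
            exact fun hh => hy (hJU j hj hh)
          rw [Finset.sum_congr rfl this]
          simp
    _ = 7 * m U := by
        rw [lintegral_const_mul _ (measurable_one.indicator hU), lintegral_indicator_one hU]

/-- local comparison on balls -/
theorem compare_ball {β : ℝ} {G : UnitAddCircle → ℝ} {L : ℝ≥0} (hL : LipschitzWith L G)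
    {m₁ m₂ : Measure UnitAddCircle} (h₁ : Conf β G m₁) (h₂ : Conf β G m₂)
    {q : ℕ} (hq : 0 < q) {P : ℤ} (hc : IsCoprime P (q : ℤ))
    (hβ : |β - P / q| ≤ 1 / (q : ℝ) ^ 2) (x : UnitAddCircle) :
    m₁ (closedBall x (2 / q)) * m₂ univ ≤
      7 * ENNReal.ofReal (Real.exp (2 * L)) ^ 2 * m₁ univ * m₂ (closedBall x (2 / q)) := by
  set K := ENNReal.ofReal (Real.exp (2 * L)) with hK
  set Z := ∑ j ∈ Finset.range q, ENNReal.ofReal (Real.exp (BS β G j x)) with hZ
  have up : m₂ univ ≤ K * (Z * m₂ (closedBall x (2 / q))) := by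
    have hcov : univ ⊆ ⋃ j ∈ Finset.range q,
        closedBall (x + (((j : ℝ) * β : ℝ) : UnitAddCircle)) (2 / q) := by
      intro y _
      obtain ⟨j, hj, hd⟩ := cover hq hc hβ x y
      simp only [mem_iUnion]
      exact ⟨j, hj, mem_closedBall.2 hd⟩
    refine (measure_mono hcov).trans ?_
    refine (measure_biUnion_finset_le _ _).trans ?_
    rw [hZ, Finset.sum_mul, Finset.mul_sum]
    apply Finset.sum_le_sum
    intro j hj
    exact (h₂.ball_bounds hL hq (Finset.mem_range.1 hj).le x).1
  have lo : Z * m₁ (closedBall x (2 / q)) ≤ K * (7 * m₁ univ) := by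
    have := sum_balls_le hq hc hβ x m₁ (Finset.range q) subset_rfl univ MeasurableSet.univ
      (fun _ _ => subset_univ _)
    refine le_trans ?_ (mul_le_mul_right this K)
    rw [hZ, Finset.sum_mul, Finset.mul_sum]
    apply Finset.sum_le_sum
    intro j hj
    exact (h₁.ball_bounds hL hq (Finset.mem_range.1 hj).le x).2
  calc m₁ (closedBall x (2 / q)) * m₂ univ
      ≤ m₁ (closedBall x (2 / q)) * (K * (Z * m₂ (closedBall x (2 / q)))) := by gcongr
    _ = K * (Z * m₁ (closedBall x (2 / q))) * m₂ (closedBall x (2 / q)) := by ring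
    _ ≤ K * (K * (7 * m₁ univ)) * m₂ (closedBall x (2 / q)) := by gcongr
    _ = 7 * K ^ 2 * m₁ univ * m₂ (closedBall x (2 / q)) := by ring

/-- comparison on all Borel sets -/
theorem compare {β : ℝ} (hβ : Irrational β) {G : UnitAddCircle → ℝ} {L : ℝ≥0}
    (hL : LipschitzWith L G)
    {m₁ m₂ : Measure UnitAddCircle} [IsProbabilityMeasure m₁] [IsProbabilityMeasure m₂]
    (h₁ : Conf β G m₁) (h₂ : Conf β G m₂) {E : Set UnitAddCircle} (hE : MeasurableSet E) :
    m₁ E ≤ 49 * ENNReal.ofReal (Real.exp (2 * L)) ^ 2 * m₂ E := by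
  set C := 49 * ENNReal.ofReal (Real.exp (2 * L)) ^ 2 with hC
  have hCtop : C ≠ ∞ := by
    rw [hC]
    exact ENNReal.mul_ne_top (by norm_num) (ENNReal.pow_ne_top ENNReal.ofReal_ne_top)
  have hC0 : C ≠ 0 := by
    rw [hC]
    apply mul_ne_zero (by norm_num)
    apply pow_ne_zero
    rw [ne_eq, ENNReal.ofReal_eq_zero, not_le]
    exact Real.exp_pos _
  -- compact inside open
  have key : ∀ K U : Set UnitAddCircle, IsCompact K → IsOpen U → K ⊆ U → m₁ K ≤ C * m₂ U := by
    intro K U hK hU hKU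
    obtain ⟨δ, hδ, hthick⟩ := hK.exists_thickening_subset_open hU hKU
    obtain ⟨N, hN⟩ := exists_nat_gt (4 / δ)
    obtain ⟨q, hqN, P, hcop, happ⟩ := exists_dirichlet hβ N
    have hq : 0 < q := by omega
    have hq' : (0 : ℝ) < q := by exact_mod_cast hq
    have hqδ : 4 / (q : ℝ) < δ := by
      have : (4 / δ : ℝ) < q := hN.trans (by exact_mod_cast hqN)
      rw [div_lt_iff₀ hδ] at this
      rw [div_lt_iff₀ hq']
      linarith
    -- grid: β' = 1/q
    have hcop' : IsCoprime (1 : ℤ) (q : ℤ) := isCoprime_one_left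
    have happ' : |(1 / (q : ℝ)) - ((1 : ℤ) : ℝ) / q| ≤ 1 / (q : ℝ) ^ 2 := by
      have h0 : (1 / (q : ℝ)) - ((1 : ℤ) : ℝ) / q = 0 := by push_cast; ring
      rw [h0, abs_zero]; positivity
    let B : ℕ → Set UnitAddCircle := fun j =>
      closedBall ((0 : UnitAddCircle) + (((j : ℝ) * (1 / (q : ℝ)) : ℝ) : UnitAddCircle)) (2 / q)
    classical
    let J : Finset ℕ := (Finset.range q).filter (fun j => (B j ∩ K).Nonempty)
    have hJsub : J ⊆ Finset.range q := Finset.filter_subset _ _
    have hJU : ∀ j ∈ J, B j ⊆ U := by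
      intro j hj y hy
      obtain ⟨z, hzB, hzK⟩ := (Finset.mem_filter.1 hj).2
      apply hthick
      rw [mem_thickening_iff]
      refine ⟨z, hzK, ?_⟩
      calc dist y z ≤ dist y _ + dist z _ := dist_triangle_right _ _ _
        _ ≤ 2 / q + 2 / q := add_le_add (mem_closedBall.1 hy) (mem_closedBall.1 hzB)
        _ = 4 / q := by ring
        _ < δ := hqδ
    have hcovK : K ⊆ ⋃ j ∈ J, B j := by
      intro y hy
      obtain ⟨j, hj, hd⟩ := cover hq hcop' happ' 0 y
      simp only [mem_iUnion]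
      exact ⟨j, Finset.mem_filter.2 ⟨hj, ⟨y, mem_closedBall.2 hd, hy⟩⟩, mem_closedBall.2 hd⟩
    have hsum := sum_balls_le hq hcop' happ' 0 m₂ J hJsub U hU.measurableSet hJU
    calc m₁ K ≤ ∑ j ∈ J, m₁ (B j) := (measure_mono hcovK).trans (measure_biUnion_finset_le _ _)
      _ ≤ ∑ j ∈ J, (7 * ENNReal.ofReal (Real.exp (2 * L)) ^ 2) * m₂ (B j) := by
          apply Finset.sum_le_sum
          intro j _
          have := compare_ball hL h₁ h₂ hq hcop happ
            ((0 : UnitAddCircle) + (((j : ℝ) * (1 / (q : ℝ)) : ℝ) : UnitAddCircle))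
          rw [measure_univ, measure_univ, mul_one, mul_one] at this
          exact this
      _ = (7 * ENNReal.ofReal (Real.exp (2 * L)) ^ 2) * ∑ j ∈ J, m₂ (B j) := by
          rw [Finset.mul_sum]
      _ ≤ (7 * ENNReal.ofReal (Real.exp (2 * L)) ^ 2) * (7 * m₂ U) := by gcongr
      _ = C * m₂ U := by rw [hC]; ring
  have key2 : ∀ K : Set UnitAddCircle, IsCompact K → K ⊆ E → m₁ K ≤ C * m₂ E := by
    intro K hK hKE
    have : m₂ E = ⨅ (U : Set UnitAddCircle) (_ : E ⊆ U) (_ : IsOpen U), m₂ U :=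
      Set.measure_eq_iInf_isOpen E m₂
    rw [← ENNReal.div_le_iff' hC0 hCtop, this]
    refine le_iInf fun U => le_iInf fun hEU => le_iInf fun hU => ?_
    rw [ENNReal.div_le_iff' hC0 hCtop]
    exact key K U hK hU (hKE.trans hEU)
  rw [hE.measure_eq_iSup_isCompact_of_ne_top (measure_ne_top m₁ E)]
  exact iSup_le fun K => iSup_le fun hKE => iSup_le fun hK => key2 K hK hKE

end H61.QP
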