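import Mathlib

open MeasureTheory Set Metric
open scoped ENNReal NNReal Topology

namespace H61.QP

/-- For an irrational `β`, there are coprime rational approximations with arbitrarily large
denominators. -/
theorem exists_dirichlet {β : ℝ} (hβ : Irrational β) (N : ℕ) :
    ∃ q : ℕ, N < q ∧ ∃ P : ℤ, IsCoprime P (q : ℤ) ∧ |β - P / q| ≤ 1 / (q : ℝ) ^ 2 := by
  have hinf := Real.infinite_rat_abs_sub_lt_one_div_den_sq_of_irrational hβ
  by_contra hcon
  push Not at hcon
  apply hinf
  have hden : ∀ r : ℚ, |β - r| < 1 / (r.den : ℝ) ^ 2 → r.den ≤ N := by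
    intro r hr
    by_contra h
    push Not at h
    have := hcon r.den h r.num (by
      rw [Int.isCoprime_iff_gcd_eq_one]
      have := r.reduced
      rw [Int.gcd]
      simpa using this)
    have h2 : ((r.num : ℝ) / (r.den : ℝ)) = (r : ℝ) := by
      exact_mod_cast (Rat.cast_def (K := ℝ) r).symm
    rw [h2] at this
    linarith
  obtain ⟨M, hM⟩ := exists_nat_gt ((|β| + 1) * N)
  have hfin : (Set.Finite ((fun ab : ℤ × ℕ => ((ab.1 : ℚ) / (ab.2 : ℚ))) ''
      ((Set.Icc (-(M : ℤ)) M) ×ˢ (Set.Iic N)))) := by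
    apply Set.Finite.image
    apply Set.Finite.prod
    · exact Set.finite_Icc _ _
    · exact Set.finite_Iic _
  refine hfin.subset ?_
  intro r hr
  simp only [Set.mem_ofPred_eq] at hr
  have hd := hden r hr
  refine ⟨(r.num, r.den), ⟨?_, hd⟩, ?_⟩
  · have hdpos : (1 : ℝ) ≤ r.den := by exact_mod_cast r.den_pos
    have h1 : |β - r| < 1 := by
      refine hr.trans_le ?_
      rw [div_le_one (by positivity)]
      nlinarith
    have h2 : |(r : ℝ)| ≤ |β| + 1 := by
      have := abs_sub_abs_le_abs_sub (r : ℝ) β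
      rw [abs_sub_comm] at this
      linarith
    have h3 : (r.num : ℝ) = r * r.den := by
      have := Rat.mul_den_eq_num r
      exact_mod_cast this.symm
    have h4 : |(r.num : ℝ)| ≤ (|β| + 1) * N := by
      rw [h3, abs_mul]
      have : |(r.den : ℝ)| ≤ N := by
        rw [abs_of_pos (by linarith)]
        exact_mod_cast hd
      exact mul_le_mul h2 this (abs_nonneg _) (by positivity)
    have h5 : |(r.num : ℝ)| < M := lt_of_le_of_lt h4 hM
    rw [abs_lt] at h5
    simp only [Set.mem_Icc]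
    constructor
    · have := h5.1.le; exact_mod_cast this
    · have := h5.2.le; exact_mod_cast this
  · exact Rat.num_div_den r

theorem cover {β : ℝ} {q : ℕ} (hq : 0 < q) {P : ℤ} (hc : IsCoprime P (q : ℤ))
    (hβ : |β - P / q| ≤ 1 / (q : ℝ) ^ 2) (x y : UnitAddCircle) :
    ∃ j ∈ Finset.range q, dist y (x + ((j * β : ℝ) : UnitAddCircle)) ≤ 2 / q := by
  obtain ⟨s, hs⟩ : ∃ s : ℝ, (s : UnitAddCircle) = y - x := QuotientAddGroup.mk_surjective (y - x)
  have hq' : (0 : ℝ) < q := by exact_mod_cast hq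
  set t : ℤ := round (q * s) with ht
  -- choose j
  obtain ⟨u, v, huv⟩ := hc
  -- u * P + v * q = 1
  set j0 : ℤ := (t * u) % q with hj0
  have hj0nn : 0 ≤ j0 := Int.emod_nonneg _ (by exact_mod_cast hq.ne')
  have hj0lt : j0 < q := Int.emod_lt_of_pos _ (by exact_mod_cast hq)
  obtain ⟨k, hk⟩ : ∃ k : ℤ, j0 * P = t + k * q := by
    have h1 : j0 = t * u - q * (t * u / q) := by
      rw [hj0, Int.emod_def]
    refine ⟨-(t * v) - (t * u / q) * P, ?_⟩
    rw [h1]
    have : u * P = 1 - v * q := by linarith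
    calc (t * u - q * (t * u / q)) * P = t * (u * P) - q * (t * u / q) * P := by ring
      _ = t * (1 - v * q) - q * (t * u / q) * P := by rw [this]
      _ = _ := by ring
  refine ⟨j0.toNat, ?_, ?_⟩
  · rw [Finset.mem_range]
    omega
  · have hj : ((j0.toNat : ℕ) : ℝ) = (j0 : ℝ) := by
      have : ((j0.toNat : ℕ) : ℤ) = j0 := Int.toNat_of_nonneg hj0nn
      exact_mod_cast this
    rw [hj]
    have e1 : y - (x + ((j0 * β : ℝ) : UnitAddCircle)) = ((s - j0 * β + k : ℝ) : UnitAddCircle) := by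
      have : ((k : ℝ) : UnitAddCircle) = 0 := by
        have := AddCircle.coe_eq_zero_iff (p := (1 : ℝ)) (x := (k : ℝ))
        rw [this]
        exact ⟨k, by simp⟩
      push_cast [AddCircle.coe_add, AddCircle.coe_sub]
      rw [this, hs]
      abel
    rw [dist_eq_norm, e1]
    refine (QuotientAddGroup.norm_mk_le_norm).trans ?_
    have h3 : |q * s - t| ≤ 1 / 2 := abs_sub_round _
    have h4 : |s - t / q| ≤ 1 / 2 / q := by
      rw [le_div_iff₀ hq']
      calc |s - t / q| * q = |s - t / q| * |(q : ℝ)| := by rw [abs_of_pos hq']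
        _ = |(s - t / q) * q| := (abs_mul _ _).symm
        _ = |q * s - t| := by congr 1; field_simp
        _ ≤ 1 / 2 := h3
    have h5 : |(j0 : ℝ) * β - j0 * (P / q)| ≤ 1 / q := by
      rw [← mul_sub, abs_mul]
      have : |(j0 : ℝ)| ≤ q := by
        rw [abs_of_nonneg (by exact_mod_cast hj0nn)]
        exact_mod_cast hj0lt.le
      calc |(j0 : ℝ)| * |β - P / q| ≤ q * (1 / (q : ℝ) ^ 2) :=
            mul_le_mul this hβ (abs_nonneg _) hq'.le
        _ = 1 / q := by field_simp
    have h6 : (j0 : ℝ) * (P / q) = t / q + k := by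
      have : (j0 : ℝ) * P = t + k * q := by exact_mod_cast hk
      field_simp
      linarith
    have h7 : s - j0 * β + k = (s - t / q) - (j0 * β - j0 * (P / q)) := by
      rw [h6]; ring
    rw [Real.norm_eq_abs, h7]
    calc |(s - t / q) - (j0 * β - j0 * (P / q))| ≤ |s - t / q| + |j0 * β - j0 * (P / q)| :=
          abs_sub _ _
      _ ≤ 1 / 2 / q + 1 / q := add_le_add h4 h5
      _ ≤ 2 / q := by
        rw [← add_div]
        exact div_le_div_of_nonneg_right (by norm_num) hq'.le

theorem mult {β : ℝ} {q : ℕ} (hq : 0 < q) {P : ℤ} (hc : IsCoprime P (q : ℤ))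
    (hβ : |β - P / q| ≤ 1 / (q : ℝ) ^ 2) (x y : UnitAddCircle) :
    ((Finset.range q).filter
      (fun j : ℕ => dist y (x + (((j : ℝ) * β : ℝ) : UnitAddCircle)) ≤ 2 / q)).card ≤ 7 := by
  obtain ⟨s, hs⟩ : ∃ s : ℝ, (s : UnitAddCircle) = y - x := QuotientAddGroup.mk_surjective (y - x)
  have hq' : (0 : ℝ) < q := by exact_mod_cast hq
  let k : ℕ → ℤ := fun j => round (s - j * β)
  have key : ∀ j ∈ (Finset.range q).filter
      (fun j : ℕ => dist y (x + (((j : ℝ) * β : ℝ) : UnitAddCircle)) ≤ 2 / q),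
      |q * s - (((j : ℤ) * P + k j * q : ℤ) : ℝ)| ≤ 3 := by
    intro j hj
    rw [Finset.mem_filter, Finset.mem_range] at hj
    obtain ⟨hjq, hj⟩ := hj
    have e1 : y - (x + ((j * β : ℝ) : UnitAddCircle)) = ((s - j * β : ℝ) : UnitAddCircle) := by
      push_cast [AddCircle.coe_add, AddCircle.coe_sub]
      rw [hs]
      abel
    rw [dist_eq_norm, e1, UnitAddCircle.norm_eq] at hj
    have h5 : |(j : ℝ) * β - j * (P / q)| ≤ 1 / q := by
      rw [← mul_sub, abs_mul]
      have : |(j : ℝ)| ≤ q := by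
        rw [abs_of_nonneg (by positivity)]
        exact_mod_cast hjq.le
      calc |(j : ℝ)| * |β - P / q| ≤ q * (1 / (q : ℝ) ^ 2) :=
            mul_le_mul this hβ (abs_nonneg _) hq'.le
        _ = 1 / q := by field_simp
    have h6 : |s - j * (P / q) - k j| ≤ 3 / q := by
      have : s - j * (P / q) - k j = (s - j * β - round (s - j * β)) + (j * β - j * (P / q)) := by
        simp only [k]; ring
      rw [this]
      calc _ ≤ |s - j * β - round (s - j * β)| + |j * β - j * (P / q)| := abs_add_le _ _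
        _ ≤ 2 / q + 1 / q := add_le_add hj h5
        _ = 3 / q := by ring
    have h7 : (q * s - (((j : ℤ) * P + k j * q : ℤ) : ℝ) : ℝ) = q * (s - j * (P / q) - k j) := by
      push_cast
      field_simp
      ring
    rw [h7, abs_mul, abs_of_pos hq']
    calc q * |s - j * (P / q) - k j| ≤ q * (3 / q) := mul_le_mul_of_nonneg_left h6 hq'.le
      _ = 3 := by field_simp
  have hcard : ((Finset.range q).filter
      (fun j : ℕ => dist y (x + (((j : ℝ) * β : ℝ) : UnitAddCircle)) ≤ 2 / q)).card ≤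
      (Finset.Icc ⌈(q * s - 3 : ℝ)⌉ ⌊(q * s + 3 : ℝ)⌋).card := by
    apply Finset.card_le_card_of_injOn (fun j : ℕ => (j : ℤ) * P + k j * q)
    · intro j hj
      have := key j hj
      rw [abs_le] at this
      rw [Finset.coe_Icc, Set.mem_Icc]
      constructor
      · rw [Int.ceil_le]; push_cast at this ⊢; linarith [this.2]
      · rw [Int.le_floor]; push_cast at this ⊢; linarith [this.1]
    · intro i hi j hj hij
      simp only at hij
      have hi' : i < q := by
        have := Finset.mem_coe.1 hi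
        rw [Finset.mem_filter, Finset.mem_range] at this
        exact this.1
      have hj' : j < q := by
        have := Finset.mem_coe.1 hj
        rw [Finset.mem_filter, Finset.mem_range] at this
        exact this.1
      have hdvd : (q : ℤ) ∣ ((i : ℤ) - j) * P := by
        refine ⟨k j - k i, ?_⟩
        linarith [hij]
      have hdvd2 : (q : ℤ) ∣ ((i : ℤ) - j) := hc.symm.dvd_of_dvd_mul_right hdvd
      have := Int.eq_zero_of_abs_lt_dvd hdvd2 (by
        rw [abs_lt]; constructor <;> omega)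
      omega
  refine hcard.trans ?_
  rw [Int.card_Icc]
  have h1 : (⌊(q * s + 3 : ℝ)⌋ : ℝ) ≤ q * s + 3 := Int.floor_le _
  have h2 : (q * s - 3 : ℝ) ≤ ⌈(q * s - 3 : ℝ)⌉ := Int.le_ceil _
  have h3 : ((⌊(q * s + 3 : ℝ)⌋ + 1 - ⌈(q * s - 3 : ℝ)⌉ : ℤ) : ℝ) ≤ 7 := by
    push_cast; linarith
  have h4 : (⌊(q * s + 3 : ℝ)⌋ + 1 - ⌈(q * s - 3 : ℝ)⌉ : ℤ) ≤ 7 := by exact_mod_cast h3
  omega

end H61.QP
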