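import Pool.Agent.T6.H61.QP.Main1

open MeasureTheory Set Metric Filter
open scoped ENNReal NNReal Topology

namespace H61.QP

/-- the action of the chain on measures -/
noncomputable def push (α : ℝ) (p : UnitAddCircle → ℝ) (μ : Measure UnitAddCircle) :
    Measure UnitAddCircle :=
  (μ.withDensity (fun y => ENNReal.ofReal (p y))).map (fun y => y + (α : UnitAddCircle)) +
  (μ.withDensity (fun y => ENNReal.ofReal (1 - p y))).map (fun y => y - (α : UnitAddCircle))

theorem push_prob {α : ℝ} {p : UnitAddCircle → ℝ} (hp : Continuous p)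
    (hp0 : ∀ y, 0 < p y) (hp1 : ∀ y, p y < 1)
    {μ : Measure UnitAddCircle} (hμ : IsProbabilityMeasure μ) :
    IsProbabilityMeasure (push α p μ) := by
  constructor
  have hpm := hp.measurable
  rw [push, Measure.add_apply, Measure.map_apply (by fun_prop) MeasurableSet.univ,
    Measure.map_apply (by fun_prop) MeasurableSet.univ, preimage_univ, preimage_univ,
    withDensity_apply _ MeasurableSet.univ, withDensity_apply _ MeasurableSet.univ,
    Measure.restrict_univ, ← lintegral_add_left (by fun_prop)]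
  have : ∀ y, ENNReal.ofReal (p y) + ENNReal.ofReal (1 - p y) = 1 := by
    intro y
    rw [← ENNReal.ofReal_add (hp0 y).le (sub_pos.2 (hp1 y)).le]
    simp
  simp_rw [this]
  simp

theorem push_integral {α : ℝ} {p : UnitAddCircle → ℝ} (hp : Continuous p)
    (hp0 : ∀ y, 0 < p y) (hp1 : ∀ y, p y < 1)
    {μ : Measure UnitAddCircle} (hμ : IsProbabilityMeasure μ) (φ : UnitAddCircle → ℝ)
    (hφ : Continuous φ) :
    ∫ y, φ y ∂(push α p μ) = ∫ y, opP α p φ y ∂μ := by
  have hpm := hp.measurable
  have f1 : IsFiniteMeasure (μ.withDensity (fun y => ENNReal.ofReal (p y))) := by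
    apply isFiniteMeasure_withDensity_ofReal
    exact (integrable_cont μ (by fun_prop)).2
  have f0 : IsFiniteMeasure (μ.withDensity (fun y => ENNReal.ofReal (1 - p y))) := by
    apply isFiniteMeasure_withDensity_ofReal
    exact (integrable_cont μ (by fun_prop)).2
  rw [push, integral_add_measure (integrable_cont _ hφ) (integrable_cont _ hφ),
    integral_map (by fun_prop) hφ.aestronglyMeasurable,
    integral_map (by fun_prop) hφ.aestronglyMeasurable,
    integral_withDensity_eq_integral_toReal_smul (by fun_prop) (by simp),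
    integral_withDensity_eq_integral_toReal_smul (by fun_prop) (by simp)]
  have t1 : ∀ y, (ENNReal.ofReal (p y)).toReal = p y := fun y =>
    ENNReal.toReal_ofReal (hp0 y).le
  have t2 : ∀ y, (ENNReal.ofReal (1 - p y)).toReal = 1 - p y := fun y =>
    ENNReal.toReal_ofReal (sub_pos.2 (hp1 y)).le
  simp_rw [t1, t2, smul_eq_mul]
  rw [← integral_add (integrable_cont _ (by fun_prop)) (integrable_cont _ (by fun_prop))]
  rfl

theorem exists_stationary {α : ℝ} {p : UnitAddCircle → ℝ} (hp : Continuous p)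
    (hp0 : ∀ y, 0 < p y) (hp1 : ∀ y, p y < 1) : ∃ ν, Stationary α p ν := by
  let μ : ℕ → Measure UnitAddCircle := fun k => (push α p)^[k] (Measure.dirac 0)
  have hμ : ∀ k, IsProbabilityMeasure (μ k) := by
    intro k
    induction k with
    | zero => simp only [μ, Function.iterate_zero, id_eq]; infer_instance
    | succ k ih =>
      simp only [μ, Function.iterate_succ_apply']
      exact push_prob hp hp0 hp1 ih
  have hstep : ∀ k (φ : C(UnitAddCircle, ℝ)), ∫ y, opP α p φ y ∂(μ k) = ∫ y, φ y ∂(μ (k + 1)) := by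
    intro k φ
    rw [← push_integral hp hp0 hp1 (hμ k) φ φ.continuous]
    simp only [μ, Function.iterate_succ_apply']
  let c : ℕ → Measure UnitAddCircle := fun n =>
    ((n + 1 : ℕ) : ℝ≥0∞)⁻¹ • ∑ k ∈ Finset.range (n + 1), μ k
  have hc : ∀ n, IsProbabilityMeasure (c n) := by
    intro n
    constructor
    simp only [c, Measure.smul_apply, Measure.coe_finsetSum, Finset.sum_apply, measure_univ,
      Finset.sum_const, Finset.card_range, nsmul_eq_mul, mul_one, smul_eq_mul]
    exact ENNReal.inv_mul_cancel (by simp) (by simp)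
  have hint : ∀ n (φ : UnitAddCircle → ℝ), Continuous φ → ∫ y, φ y ∂(c n) =
      ((n + 1 : ℕ) : ℝ)⁻¹ * ∑ k ∈ Finset.range (n + 1), ∫ y, φ y ∂(μ k) := by
    intro n φ hφ
    simp only [c]
    rw [integral_smul_measure, integral_finsetSum_measure]
    · rw [smul_eq_mul, ENNReal.toReal_inv, ENNReal.toReal_natCast]
    · intro i _
      exact integrable_cont _ hφ
  -- limit along an ultrafilter
  let C : ℕ → ProbabilityMeasure UnitAddCircle := fun n => ⟨c n, hc n⟩
  obtain ⟨ν, -, hν⟩ := (isCompact_univ (X := ProbabilityMeasure UnitAddCircle)).ultrafilter_le_nhds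
    ((hyperfilter ℕ).map C) (by simp)
  have hν' : Tendsto C (hyperfilter ℕ : Filter ℕ) (𝓝 ν) := hν
  rw [ProbabilityMeasure.tendsto_iff_forall_integral_tendsto] at hν'
  refine ⟨ν, ν.2, ?_⟩
  intro φ
  have hPc : Continuous (opP α p φ) := by
    unfold opP
    have := φ.continuous
    fun_prop
  have l1 := hν' (BoundedContinuousFunction.mkOfCompact φ)
  have l2 := hν' (BoundedContinuousFunction.mkOfCompact ⟨opP α p φ, hPc⟩)
  simp only [BoundedContinuousFunction.mkOfCompact_apply, ContinuousMap.coe_mk] at l1 l2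
  have l3 : Tendsto (fun n => ∫ y, opP α p φ y ∂(c n) - ∫ y, φ y ∂(c n)) (hyperfilter ℕ : Filter ℕ)
      (𝓝 (∫ y, opP α p φ y ∂(ν : Measure UnitAddCircle) -
        ∫ y, φ y ∂(ν : Measure UnitAddCircle))) := l2.sub l1
  have l4 : Tendsto (fun n => ∫ y, opP α p φ y ∂(c n) - ∫ y, φ y ∂(c n)) atTop (𝓝 0) := by
    have hb : ∀ k, |∫ y, φ y ∂(μ k)| ≤ ‖φ‖ := by
      intro k
      have := hμ k
      have h1 := norm_integral_le_of_norm_le_const (μ := μ k) (f := φ) (C := ‖φ‖)
        (Eventually.of_forall (fun y => φ.norm_coe_le_norm y))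
      simpa using h1
    have hbd : ∀ n : ℕ, ‖∫ y, opP α p φ y ∂(c n) - ∫ y, φ y ∂(c n)‖ ≤
        (2 * ‖φ‖) * ((n : ℝ) + 1)⁻¹ := by
      intro n
      rw [hint n _ hPc, hint n _ φ.continuous, ← mul_sub, ← Finset.sum_sub_distrib]
      simp_rw [hstep]
      rw [Finset.sum_range_sub (fun k => ∫ y, φ y ∂(μ k)), norm_mul, mul_comm]
      have e1 : ‖((n + 1 : ℕ) : ℝ)⁻¹‖ = ((n : ℝ) + 1)⁻¹ := by
        rw [Real.norm_of_nonneg (by positivity)]; push_cast; rfl
      rw [e1]
      apply mul_le_mul_of_nonneg_right _ (by positivity)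
      rw [Real.norm_eq_abs]
      have := abs_sub (∫ y, φ y ∂(μ (n + 1))) (∫ y, φ y ∂(μ 0))
      have := hb (n + 1)
      have := hb 0
      linarith
    apply squeeze_zero_norm hbd
    have : Tendsto (fun n : ℕ => (2 * ‖φ‖) * ((n : ℝ) + 1)⁻¹) atTop (𝓝 ((2 * ‖φ‖) * 0)) := by
      apply Tendsto.const_mul
      have := tendsto_one_div_add_atTop_nhds_zero_nat (𝕜 := ℝ)
      simpa using this
    simpa using this
  have l5 := l4.mono_left (Nat.hyperfilter_le_atTop)
  have := tendsto_nhds_unique l3 l5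
  linarith

/-- **Q1**: existence and uniqueness -/
theorem existsUnique {α : ℝ} (hα : Irrational α) {p : UnitAddCircle → ℝ}
    (hp : ContDiff ℝ 1 (fun t : ℝ => p (t : UnitAddCircle)))
    (hp0 : ∀ y, 0 < p y) (hp1 : ∀ y, p y < 1)
    (hsym : ∫ y, Real.log (p y) = ∫ y, Real.log (1 - p y)) :
    ∃! ν, Stationary α p ν := by
  obtain ⟨ν, hν⟩ := exists_stationary (α := α) (continuous_of_lift hp) hp0 hp1
  exact ⟨ν, hν, fun ν' hν' => stationary_unique hα hp hp0 hp1 hsym hν' hν⟩

end H61.QP
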