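import Mathlib

open MeasureTheory Set Filter ProbabilityTheory Preorder
open scoped ENNReal NNReal Topology

namespace H61.MC

variable {X : Type*} [MeasurableSpace X]

/-- The (history dependent) family of transition kernels of the homogeneous Markov chain with
kernel `κ`: given the history up to time `n`, the next state has law `κ (last state)`. -/
noncomputable def fam (κ : Kernel X X) (n : ℕ) : Kernel (Π _ : Finset.Iic n, X) X :=
  κ.comap (fun h => h ⟨n, Finset.mem_Iic.2 le_rfl⟩) (measurable_pi_apply _)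

instance (κ : Kernel X X) [IsMarkovKernel κ] (n : ℕ) : IsMarkovKernel (fam κ n) := by
  unfold fam; infer_instance

/-- The law on path space of the Markov chain with kernel `κ` and initial law `ν`. -/
noncomputable def chainLaw (κ : Kernel X X) [IsMarkovKernel κ] (ν : Measure X) :
    Measure (ℕ → X) :=
  Kernel.trajMeasure (X := fun _ => X) ν (fam κ)

instance (κ : Kernel X X) [IsMarkovKernel κ] (ν : Measure X) [IsProbabilityMeasure ν] :
    IsProbabilityMeasure (chainLaw κ ν) := by
  unfold chainLaw; infer_instance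

/-- The time shift on path space. -/
def shift (x : ℕ → X) : ℕ → X := fun n => x (n + 1)

theorem measurable_shift : Measurable (shift : (ℕ → X) → (ℕ → X)) := by
  unfold shift
  fun_prop

theorem shift_iterate (n : ℕ) (x : ℕ → X) (i : ℕ) : (shift^[n] x) i = x (i + n) := by
  induction n generalizing x with
  | zero => rfl
  | succ n ih =>
    rw [Function.iterate_succ_apply, ih]
    simp only [shift]
    congr 1

/-- Mixing of a measure under a map. -/
def Mixing {Ω : Type*} [MeasurableSpace Ω] (T : Ω → Ω) (Q : Measure Ω) : Prop :=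
  ∀ A B : Set Ω, MeasurableSet A → MeasurableSet B →
    Tendsto (fun n : ℕ => Q (A ∩ T^[n] ⁻¹' B)) atTop (𝓝 (Q A * Q B))

/-- transition operator on nonnegative functions -/
noncomputable def opT (κ : Kernel X X) (f : X → ℝ≥0∞) (x : X) : ℝ≥0∞ := ∫⁻ y, f y ∂(κ x)

theorem measurable_opT (κ : Kernel X X) {f : X → ℝ≥0∞} (hf : Measurable f) :
    Measurable (opT κ f) := hf.lintegral_kernel

theorem measurable_opT_iter (κ : Kernel X X) {f : X → ℝ≥0∞} (hf : Measurable f) (n : ℕ) :
    Measurable ((opT κ)^[n] f) := by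
  induction n with
  | zero => simpa
  | succ n ih => rw [Function.iterate_succ_apply']; exact measurable_opT κ ih

variable (κ : Kernel X X) [IsMarkovKernel κ] (ν : Measure X) [IsProbabilityMeasure ν]

/-- one step Markov property -/
theorem markov (a : ℕ) (Φ : (Π _ : Finset.Iic a, X) → ℝ≥0∞) (hΦ : Measurable Φ)
    (f : X → ℝ≥0∞) (hf : Measurable f) :
    ∫⁻ x, Φ (frestrictLe a x) * f (x (a + 1)) ∂(chainLaw κ ν) =
      ∫⁻ x, Φ (frestrictLe a x) * opT κ f (x a) ∂(chainLaw κ ν) := by
  have h := Kernel.map_frestrictLe_trajMeasure_compProd_eq_map_trajMeasure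
    (X := fun _ => X) (κ := fam κ) (μ₀ := ν) (a := a)
  have h1 : ∫⁻ x, Φ (frestrictLe a x) * f (x (a + 1)) ∂(chainLaw κ ν) =
      ∫⁻ z, Φ z.1 * f z.2 ∂((chainLaw κ ν).map (fun x ↦ (frestrictLe a x, x (a + 1)))) := by
    rw [lintegral_map (by fun_prop) (by fun_prop)]
  rw [h1]
  unfold chainLaw
  rw [← h, Measure.lintegral_compProd (by fun_prop)]
  have h2 : ∀ z : (Π _ : Finset.Iic a, X), ∫⁻ b, Φ z * f b ∂(fam κ a z) =
      Φ z * opT κ f (z ⟨a, Finset.mem_Iic.2 le_rfl⟩) := by
    intro z
    rw [lintegral_const_mul _ hf]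
    rfl
  simp only
  simp_rw [h2]
  rw [lintegral_map _ (by fun_prop)]
  · rfl
  · exact hΦ.mul ((measurable_opT κ hf).comp (measurable_pi_apply _))

/-- iterated Markov property -/
theorem markov_iter (a m : ℕ) (Φ : (Π _ : Finset.Iic a, X) → ℝ≥0∞) (hΦ : Measurable Φ)
    (f : X → ℝ≥0∞) (hf : Measurable f) :
    ∫⁻ x, Φ (frestrictLe a x) * f (x (a + m)) ∂(chainLaw κ ν) =
      ∫⁻ x, Φ (frestrictLe a x) * ((opT κ)^[m] f) (x a) ∂(chainLaw κ ν) := by
  induction m generalizing f with
  | zero => rfl
  | succ m ih =>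
    have h := markov κ ν (a + m) (Φ ∘ frestrictLe₂ (π := fun _ => X) (Nat.le_add_right a m))
      (hΦ.comp (measurable_frestrictLe₂ _)) f hf
    rw [Function.iterate_succ_apply, ← ih (opT κ f) (measurable_opT κ hf)]
    exact h

/-- functional of a box -/
noncomputable def boxF (B : ℕ → Set X) : ℕ → ℕ → X → ℝ≥0∞
  | 0, _ => fun _ => 1
  | l + 1, i => fun x => (B i).indicator 1 x * opT κ (boxF B l (i + 1)) x

/-- box event -/
def ev (B : ℕ → Set X) (l i n : ℕ) : Set (ℕ → X) := {x | ∀ j < l, x (n + j) ∈ B (i + j)}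

theorem measurableSet_ev {B : ℕ → Set X} (hB : ∀ i, MeasurableSet (B i)) (l i n : ℕ) :
    MeasurableSet (ev B l i n) := by
  have : ev B l i n = ⋂ j ∈ Finset.range l, (fun x : ℕ → X => x (n + j)) ⁻¹' (B (i + j)) := by
    ext x
    simp [ev]
  rw [this]
  apply Finset.measurableSet_biInter
  intro j _
  exact (measurable_pi_apply _) (hB _)

theorem measurable_boxF {B : ℕ → Set X} (hB : ∀ i, MeasurableSet (B i)) (l i : ℕ) :
    Measurable (boxF κ B l i) := by
  induction l generalizing i with
  | zero => exact measurable_const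
  | succ l ih => exact (measurable_one.indicator (hB i)).mul (measurable_opT κ (ih _))

theorem opT_le_one {f : X → ℝ≥0∞} (hf : ∀ x, f x ≤ 1) (x : X) : opT κ f x ≤ 1 := by
  calc opT κ f x ≤ ∫⁻ _, 1 ∂(κ x) := lintegral_mono hf
    _ = 1 := by simp

theorem boxF_le_one (B : ℕ → Set X) (l i : ℕ) (x : X) : boxF κ B l i x ≤ 1 := by
  induction l generalizing i x with
  | zero => simp [boxF]
  | succ l ih =>
    simp only [boxF]
    calc (B i).indicator 1 x * opT κ (boxF κ B l (i + 1)) x ≤ 1 * 1 := by
          gcongr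
          · by_cases hx : x ∈ B i
            · rw [indicator_of_mem hx]; simp
            · rw [indicator_of_notMem hx]; simp
          · exact opT_le_one κ (ih (i + 1)) x
      _ = 1 := by simp

theorem box_formula {B : ℕ → Set X} (hB : ∀ i, MeasurableSet (B i)) (l i n : ℕ)
    (Φ : (Π _ : Finset.Iic n, X) → ℝ≥0∞) (hΦ : Measurable Φ) :
    ∫⁻ x, Φ (frestrictLe n x) * (ev B l i n).indicator 1 x ∂(chainLaw κ ν) =
      ∫⁻ x, Φ (frestrictLe n x) * boxF κ B l i (x n) ∂(chainLaw κ ν) := by
  induction l generalizing i n with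
  | zero =>
    have : ev B 0 i n = univ := by ext x; simp [ev]
    simp [this, boxF]
  | succ l ih =>
    have e1 : ∀ x : ℕ → X, (ev B (l + 1) i n).indicator (1 : (ℕ → X) → ℝ≥0∞) x =
        (B i).indicator 1 (x n) * (ev B l (i + 1) (n + 1)).indicator 1 x := by
      intro x
      have hiff : x ∈ ev B (l + 1) i n ↔ x n ∈ B i ∧ x ∈ ev B l (i + 1) (n + 1) := by
        simp only [ev, mem_ofPred_eq]
        constructor
        · intro h
          refine ⟨by simpa using h 0 (by omega), fun j hj => ?_⟩
          have := h (j + 1) (by omega)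
          rwa [show n + (j + 1) = n + 1 + j by ring, show i + (j + 1) = i + 1 + j by ring] at this
        · rintro ⟨h0, h1⟩ j hj
          rcases j with _ | j
          · simpa using h0
          · have := h1 j (by omega)
            rwa [show n + (j + 1) = n + 1 + j by ring, show i + (j + 1) = i + 1 + j by ring]
      by_cases h1 : x n ∈ B i
      · by_cases h2 : x ∈ ev B l (i + 1) (n + 1)
        · rw [indicator_of_mem (hiff.2 ⟨h1, h2⟩), indicator_of_mem h1, indicator_of_mem h2]; simp
        · rw [indicator_of_notMem (fun h => h2 (hiff.1 h).2), indicator_of_notMem h2]; simp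
      · rw [indicator_of_notMem (fun h => h1 (hiff.1 h).1), indicator_of_notMem h1]; simp
    -- the new prefix functional
    let Ψ : (Π _ : Finset.Iic n, X) → ℝ≥0∞ := fun z =>
      Φ z * (B i).indicator 1 (z ⟨n, Finset.mem_Iic.2 le_rfl⟩)
    have hΨ : Measurable Ψ :=
      hΦ.mul ((measurable_one.indicator (hB i)).comp (measurable_pi_apply _))
    have h1 := ih (i + 1) (n + 1) (Ψ ∘ frestrictLe₂ (π := fun _ => X) (Nat.le_add_right n 1))
      (hΨ.comp (measurable_frestrictLe₂ _))
    have h2 := markov κ ν n Ψ hΨ (boxF κ B l (i + 1)) (measurable_boxF κ hB l (i + 1))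
    calc ∫⁻ x, Φ (frestrictLe n x) * (ev B (l + 1) i n).indicator 1 x ∂(chainLaw κ ν)
        = ∫⁻ x, (Ψ ∘ frestrictLe₂ (π := fun _ => X) (Nat.le_add_right n 1)) (frestrictLe (n + 1) x) *
          (ev B l (i + 1) (n + 1)).indicator 1 x ∂(chainLaw κ ν) := by
          apply lintegral_congr
          intro x
          rw [e1, ← mul_assoc]
          rfl
      _ = ∫⁻ x, Ψ (frestrictLe n x) * boxF κ B l (i + 1) (x (n + 1)) ∂(chainLaw κ ν) := h1
      _ = ∫⁻ x, Ψ (frestrictLe n x) * opT κ (boxF κ B l (i + 1)) (x n) ∂(chainLaw κ ν) := h2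
      _ = ∫⁻ x, Φ (frestrictLe n x) * boxF κ B (l + 1) i (x n) ∂(chainLaw κ ν) := by
          apply lintegral_congr
          intro x
          simp only [boxF, Ψ]
          rw [mul_assoc]
          rfl

end H61.MC
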