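import Pool.Agent.T6.H61.QP.MC

open MeasureTheory Set Filter ProbabilityTheory Preorder
open scoped ENNReal NNReal Topology

namespace H61.MC

variable {X : Type*} [MeasurableSpace X]
variable (κ : Kernel X X) [IsMarkovKernel κ] (ν : Measure X) [IsProbabilityMeasure ν]

theorem map_zero : (chainLaw κ ν).map (fun x => x 0) = ν := by
  have h1 : (chainLaw κ ν).map (frestrictLe (π := fun _ => X) 0) =
      ν.map (MeasurableEquiv.piUnique (fun _ : Finset.Iic 0 => X)).symm := by
    rw [chainLaw, Kernel.trajMeasure, Measure.map_comp _ _ (by fun_prop),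
      Kernel.traj_map_frestrictLe, Kernel.partialTraj_self, Measure.id_comp]
  have h2 : (fun x : ℕ → X => x 0) =
      (fun z : (Π _ : Finset.Iic 0, X) => z ⟨0, Finset.mem_Iic.2 le_rfl⟩) ∘
        (frestrictLe (π := fun _ => X) 0) := rfl
  rw [h2, ← Measure.map_map (measurable_pi_apply _) (by fun_prop), h1,
    Measure.map_map (measurable_pi_apply _) (by fun_prop)]
  have h3 : (fun z : (Π _ : Finset.Iic 0, X) => z ⟨0, Finset.mem_Iic.2 le_rfl⟩) ∘
      (MeasurableEquiv.piUnique (fun _ : Finset.Iic 0 => X)).symm = id := by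
    ext x
    rfl
  rw [h3, Measure.map_id]

variable {κ ν}

theorem lint_zero {f : X → ℝ≥0∞} (hf : Measurable f) :
    ∫⁻ x, f (x 0) ∂(chainLaw κ ν) = ∫⁻ x, f x ∂ν := by
  conv_rhs => rw [← map_zero κ ν]
  rw [lintegral_map hf (measurable_pi_apply _)]

theorem lint_iter (hinv : ∀ f : X → ℝ≥0∞, Measurable f → ∫⁻ x, opT κ f x ∂ν = ∫⁻ x, f x ∂ν)
    {f : X → ℝ≥0∞} (hf : Measurable f) (n : ℕ) :
    ∫⁻ x, ((opT κ)^[n] f) x ∂ν = ∫⁻ x, f x ∂ν := by
  induction n with
  | zero => rfl
  | succ n ih => rw [Function.iterate_succ_apply', hinv _ (measurable_opT_iter κ hf n), ih]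

theorem lint_n (hinv : ∀ f : X → ℝ≥0∞, Measurable f → ∫⁻ x, opT κ f x ∂ν = ∫⁻ x, f x ∂ν)
    {f : X → ℝ≥0∞} (hf : Measurable f) (n : ℕ) :
    ∫⁻ x, f (x n) ∂(chainLaw κ ν) = ∫⁻ x, f x ∂ν := by
  have h := markov_iter κ ν 0 n (fun _ => 1) measurable_const f hf
  simp only [one_mul, Nat.zero_add] at h
  rw [h, lint_zero (measurable_opT_iter κ hf n), lint_iter hinv hf n]

theorem measure_ev (hinv : ∀ f : X → ℝ≥0∞, Measurable f → ∫⁻ x, opT κ f x ∂ν = ∫⁻ x, f x ∂ν)
    {B : ℕ → Set X} (hB : ∀ i, MeasurableSet (B i)) (l n : ℕ) :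
    (chainLaw κ ν) (ev B l 0 n) = ∫⁻ x, boxF κ B l 0 x ∂ν := by
  have h := box_formula κ ν hB l 0 n (fun _ => 1) measurable_const
  simp only [one_mul] at h
  rw [lintegral_indicator_one (measurableSet_ev hB l 0 n)] at h
  rw [h, lint_n hinv (measurable_boxF κ hB l 0) n]

theorem preimage_shift_ev (B : ℕ → Set X) (l n : ℕ) :
    shift^[n] ⁻¹' (ev B l 0 0) = ev B l 0 n := by
  ext x
  simp only [ev, mem_preimage, mem_ofPred_eq, shift_iterate]
  constructor
  · intro h j hj
    have := h j hj
    rwa [show n + j = 0 + j + n by ring]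
  · intro h j hj
    have := h j hj
    rwa [show n + j = 0 + j + n by ring] at this

omit [MeasurableSpace X] in
theorem ev_zero (B : ℕ → Set X) (l : ℕ) : ev B l 0 0 = {x | ∀ j < l, x j ∈ B j} := by
  ext x; simp [ev]

theorem exists_ev_of_squareCylinder {s : Set (ℕ → X)}
    (hs : s ∈ squareCylinders (fun _ : ℕ => {t : Set X | MeasurableSet t})) :
    ∃ (B : ℕ → Set X) (l : ℕ), (∀ i, MeasurableSet (B i)) ∧ s = ev B l 0 0 := by
  classical
  obtain ⟨F, t, ht, rfl⟩ := hs
  refine ⟨fun i => if i ∈ F then t i else univ, F.sup id + 1, ?_, ?_⟩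
  · intro i
    simp only
    split_ifs
    · exact ht i (mem_univ i)
    · exact MeasurableSet.univ
  · rw [ev_zero]
    ext x
    simp only [Set.mem_pi, mem_ofPred_eq, Finset.mem_coe]
    constructor
    · intro h j _
      split_ifs with hj
      · exact h j hj
      · trivial
    · intro h i hi
      have h1 : i ≤ F.sup id := Finset.le_sup (f := id) hi
      have := h i (by omega)
      rwa [if_pos hi] at this

theorem shift_preserving
    (hinv : ∀ f : X → ℝ≥0∞, Measurable f → ∫⁻ x, opT κ f x ∂ν = ∫⁻ x, f x ∂ν) :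
    MeasurePreserving shift (chainLaw κ ν) (chainLaw κ ν) := by
  refine ⟨measurable_shift, ?_⟩
  have hpm : IsProbabilityMeasure ((chainLaw κ ν).map shift) :=
    Measure.isProbabilityMeasure_map measurable_shift.aemeasurable
  refine ext_of_generate_finite _ generateFrom_squareCylinders.symm
    (isPiSystem_squareCylinders (fun _ ↦ MeasurableSpace.isPiSystem_measurableSet) (by simp)) ?_ (by simp)
  intro s hs
  obtain ⟨B, l, hB, rfl⟩ := exists_ev_of_squareCylinder hs
  rw [Measure.map_apply measurable_shift (measurableSet_ev hB l 0 0)]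
  have : shift ⁻¹' (ev B l 0 0) = ev B l 0 1 := preimage_shift_ev B l 1
  rw [this, measure_ev hinv hB, measure_ev hinv hB]

theorem shift_iterate_preserving
    (hinv : ∀ f : X → ℝ≥0∞, Measurable f → ∫⁻ x, opT κ f x ∂ν = ∫⁻ x, f x ∂ν) (n : ℕ) :
    MeasurePreserving shift^[n] (chainLaw κ ν) (chainLaw κ ν) :=
  (shift_preserving hinv).iterate n

/-- mixing for a cylinder and a box -/
theorem mixing_basic
    (hinv : ∀ f : X → ℝ≥0∞, Measurable f → ∫⁻ x, opT κ f x ∂ν = ∫⁻ x, f x ∂ν)
    (hW : ∀ μ : Measure X, μ ≤ ν → ∀ f : X → ℝ≥0∞, Measurable f → (∀ x, f x ≤ 1) →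
      Tendsto (fun m : ℕ => ∫⁻ x, ((opT κ)^[m] f) x ∂μ) atTop (𝓝 (μ univ * ∫⁻ x, f x ∂ν)))
    {B : ℕ → Set X} (hB : ∀ i, MeasurableSet (B i)) (l : ℕ)
    (k : ℕ) {S : Set (Π _ : Finset.Iic k, X)} (hS : MeasurableSet S) :
    Tendsto (fun n : ℕ => (chainLaw κ ν) ((frestrictLe (π := fun _ => X) k ⁻¹' S) ∩
      shift^[n] ⁻¹' (ev B l 0 0))) atTop
      (𝓝 ((chainLaw κ ν) (frestrictLe (π := fun _ => X) k ⁻¹' S) *
        (chainLaw κ ν) (ev B l 0 0))) := by
  set A := frestrictLe (π := fun _ => X) k ⁻¹' S with hA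
  have hAm : MeasurableSet A := (measurable_frestrictLe k) hS
  set μ : Measure X := ((chainLaw κ ν).restrict A).map (fun x => x k) with hμ
  have hle : μ ≤ ν := by
    rw [Measure.le_iff]
    intro E hE
    rw [hμ, Measure.map_apply (measurable_pi_apply _) hE]
    calc ((chainLaw κ ν).restrict A) ((fun x => x k) ⁻¹' E)
        ≤ (chainLaw κ ν) ((fun x => x k) ⁻¹' E) := Measure.restrict_apply_le _ _
      _ = ∫⁻ x, E.indicator 1 (x k) ∂(chainLaw κ ν) := by
          rw [← lintegral_indicator_one ((measurable_pi_apply k) hE)]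
          rfl
      _ = ν E := by
          rw [lint_n hinv (measurable_one.indicator hE), lintegral_indicator_one hE]
  have hmass : μ univ = (chainLaw κ ν) A := by
    rw [hμ, Measure.map_apply (measurable_pi_apply _) MeasurableSet.univ, preimage_univ,
      Measure.restrict_apply MeasurableSet.univ, univ_inter]
  have hlim := hW μ hle (boxF κ B l 0) (measurable_boxF κ hB l 0) (boxF_le_one κ B l 0)
  rw [hmass, ← measure_ev hinv hB l 0] at hlim
  rw [← tendsto_add_atTop_iff_nat k]
  refine hlim.congr ?_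
  intro m
  have e1 : (chainLaw κ ν) (A ∩ shift^[m + k] ⁻¹' (ev B l 0 0)) =
      ∫⁻ x, (S.indicator 1 (frestrictLe k x)) * (ev B l 0 (k + m)).indicator 1 x
        ∂(chainLaw κ ν) := by
    rw [preimage_shift_ev, add_comm m k,
      ← lintegral_indicator_one (hAm.inter (measurableSet_ev hB l 0 (k + m)))]
    apply lintegral_congr
    intro x
    by_cases h1 : frestrictLe k x ∈ S
    · by_cases h2 : x ∈ ev B l 0 (k + m)
      · rw [indicator_of_mem h1, indicator_of_mem h2,
          indicator_of_mem (show x ∈ A ∩ ev B l 0 (k + m) from ⟨h1, h2⟩)]; simp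
      · rw [indicator_of_notMem h2,
          indicator_of_notMem (show x ∉ A ∩ ev B l 0 (k + m) from fun h => h2 h.2)]; simp
    · rw [indicator_of_notMem h1,
        indicator_of_notMem (show x ∉ A ∩ ev B l 0 (k + m) from fun h => h1 h.1)]; simp
  rw [e1]
  have e2 := box_formula κ ν hB l 0 (k + m)
    ((S.indicator 1) ∘ frestrictLe₂ (π := fun _ => X) (Nat.le_add_right k m))
    ((measurable_one.indicator hS).comp (measurable_frestrictLe₂ _))
  have e3 := markov_iter κ ν k m (S.indicator 1) (measurable_one.indicator hS) (boxF κ B l 0)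
    (measurable_boxF κ hB l 0)
  have e4 : ∫⁻ x, ((opT κ)^[m] (boxF κ B l 0)) x ∂μ =
      ∫⁻ x, (S.indicator 1 (frestrictLe k x)) * ((opT κ)^[m] (boxF κ B l 0)) (x k)
        ∂(chainLaw κ ν) := by
    rw [hμ, lintegral_map (measurable_opT_iter κ (measurable_boxF κ hB l 0) m)
      (measurable_pi_apply _), ← lintegral_indicator hAm]
    apply lintegral_congr
    intro x
    by_cases h1 : frestrictLe k x ∈ S
    · have h1' : x ∈ A := h1
      rw [indicator_of_mem h1, indicator_of_mem h1']; simp
    · have h1' : x ∉ A := h1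
      rw [indicator_of_notMem h1, indicator_of_notMem h1']; simp
  rw [e4, ← e3]
  exact e2.symm

theorem real_formulation {Ω : Type*} [MeasurableSpace Ω] {T : Ω → Ω} {Q : Measure Ω}
    [IsProbabilityMeasure Q] {A B : Set Ω} :
    Tendsto (fun n : ℕ => Q (A ∩ T^[n] ⁻¹' B)) atTop (𝓝 (Q A * Q B)) ↔
    Tendsto (fun n : ℕ => Q.real (A ∩ T^[n] ⁻¹' B)) atTop (𝓝 (Q.real A * Q.real B)) := by
  simp only [Measure.real]
  rw [← ENNReal.toReal_mul]
  constructor
  · intro h
    exact (ENNReal.tendsto_toReal (ENNReal.mul_ne_top (measure_ne_top _ _)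
      (measure_ne_top _ _))).comp h
  · intro h
    have := ENNReal.tendsto_ofReal h
    rw [ENNReal.ofReal_toReal (ENNReal.mul_ne_top (measure_ne_top _ _)
      (measure_ne_top _ _))] at this
    refine this.congr ?_
    intro n
    rw [ENNReal.ofReal_toReal (measure_ne_top _ _)]

/-- π-λ -/
theorem mixing_of_basic {Ω : Type*} [mΩ : MeasurableSpace Ω] {T : Ω → Ω} {Q : Measure Ω}
    [IsProbabilityMeasure Q] (hT : MeasurePreserving T Q Q)
    {C D : Set (Set Ω)} (hC : mΩ = MeasurableSpace.generateFrom C) (hCπ : IsPiSystem C)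
    (hD : mΩ = MeasurableSpace.generateFrom D) (hDπ : IsPiSystem D)
    (h : ∀ A ∈ C, ∀ B ∈ D, Tendsto (fun n : ℕ => Q (A ∩ T^[n] ⁻¹' B)) atTop (𝓝 (Q A * Q B))) :
    Mixing T Q := by
  have hTn : ∀ n, MeasurePreserving T^[n] Q Q := fun n => hT.iterate n
  have hDm : ∀ B ∈ D, MeasurableSet B := by
    intro B hB; rw [hD]; exact MeasurableSpace.measurableSet_generateFrom hB
  -- first extension
  have step1 : ∀ B ∈ D, ∀ A, MeasurableSet A →
      Tendsto (fun n : ℕ => Q.real (A ∩ T^[n] ⁻¹' B)) atTop (𝓝 (Q.real A * Q.real B)) := by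
    intro B hB A hA
    have hBm := hDm B hB
    induction A, hA using MeasurableSpace.induction_on_inter hC hCπ with
    | empty => simp
    | basic A hA => exact real_formulation.1 (h A hA B hB)
    | compl A hA ih =>
      have e : ∀ n : ℕ, Q.real (Aᶜ ∩ T^[n] ⁻¹' B) = Q.real B - Q.real (A ∩ T^[n] ⁻¹' B) := by
        intro n
        have h1 : Q.real (T^[n] ⁻¹' B) = Q.real B := by
          rw [Measure.real, (hTn n).measure_preimage hBm.nullMeasurableSet]; rfl
        rw [← h1, ← measureReal_inter_add_sdiff (s := T^[n] ⁻¹' B) hA]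
        rw [inter_comm A, inter_comm Aᶜ, diff_eq]
        ring
      simp_rw [e]
      have : Q.real Aᶜ * Q.real B = Q.real B - Q.real A * Q.real B := by
        rw [probReal_compl_eq_one_sub hA]; ring
      rw [this]
      exact ih.const_sub _
    | iUnion f hd hf ih =>
      have e : ∀ n : ℕ, Q.real ((⋃ i, f i) ∩ T^[n] ⁻¹' B) =
          ∑' i, Q.real (f i ∩ T^[n] ⁻¹' B) := by
        intro n
        rw [iUnion_inter, measureReal_def, measure_iUnion
          (fun i j hij => (hd hij).mono inter_subset_left inter_subset_left)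
          (fun i => (hf i).inter ((hTn n).measurable hBm)),
          ENNReal.tsum_toReal_eq (fun i => measure_ne_top _ _)]
        rfl
      have e2 : Q.real (⋃ i, f i) * Q.real B = ∑' i, Q.real (f i) * Q.real B := by
        rw [tsum_mul_right, measureReal_def, measure_iUnion hd hf,
          ENNReal.tsum_toReal_eq (fun i => measure_ne_top _ _)]
        rfl
      simp_rw [e]
      rw [e2]
      apply tendsto_tsum_of_dominated_convergence (bound := fun i => Q.real (f i))
      · have : ∑' i, Q (f i) ≠ ∞ := by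
          rw [← measure_iUnion hd hf]; exact measure_ne_top _ _
        exact ENNReal.summable_toReal this
      · intro i; exact ih i
      · filter_upwards with n i
        rw [Real.norm_of_nonneg measureReal_nonneg]
        exact measureReal_mono inter_subset_left
  intro A B hA hB
  rw [real_formulation]
  induction B, hB using MeasurableSpace.induction_on_inter hD hDπ with
  | empty => simp
  | basic B hB => exact step1 B hB A hA
  | compl B hB ih =>
    have e : ∀ n : ℕ, Q.real (A ∩ T^[n] ⁻¹' Bᶜ) = Q.real A - Q.real (A ∩ T^[n] ⁻¹' B) := by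
      intro n
      rw [← measureReal_inter_add_sdiff (s := A) ((hTn n).measurable hB)]
      rw [preimage_compl, diff_eq]
      ring
    simp_rw [e]
    have : Q.real A * Q.real Bᶜ = Q.real A - Q.real A * Q.real B := by
      rw [probReal_compl_eq_one_sub hB]; ring
    rw [this]
    exact ih.const_sub _
  | iUnion f hd hf ih =>
    have e : ∀ n : ℕ, Q.real (A ∩ T^[n] ⁻¹' (⋃ i, f i)) =
        ∑' i, Q.real (A ∩ T^[n] ⁻¹' (f i)) := by
      intro n
      rw [preimage_iUnion, inter_iUnion, measureReal_def, measure_iUnion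
        (fun i j hij => ((hd hij).preimage _).mono inter_subset_right inter_subset_right)
        (fun i => hA.inter ((hTn n).measurable (hf i))),
        ENNReal.tsum_toReal_eq (fun i => measure_ne_top _ _)]
      rfl
    have e2 : Q.real A * Q.real (⋃ i, f i) = ∑' i, Q.real A * Q.real (f i) := by
      rw [tsum_mul_left, measureReal_def Q (⋃ i, f i), measure_iUnion hd hf,
        ENNReal.tsum_toReal_eq (fun i => measure_ne_top _ _)]
      rfl
    simp_rw [e]
    rw [e2]
    apply tendsto_tsum_of_dominated_convergence (bound := fun i => Q.real (f i))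
    · have : ∑' i, Q (f i) ≠ ∞ := by
        rw [← measure_iUnion hd hf]; exact measure_ne_top _ _
      exact ENNReal.summable_toReal this
    · intro i; exact ih i
    · filter_upwards with n i
      rw [Real.norm_of_nonneg measureReal_nonneg]
      calc Q.real (A ∩ T^[n] ⁻¹' f i) ≤ Q.real (T^[n] ⁻¹' f i) :=
            measureReal_mono inter_subset_right
        _ = Q.real (f i) := by
            rw [Measure.real, (hTn n).measure_preimage (hf i).nullMeasurableSet]; rfl

theorem mixing_chain
    (hinv : ∀ f : X → ℝ≥0∞, Measurable f → ∫⁻ x, opT κ f x ∂ν = ∫⁻ x, f x ∂ν)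
    (hW : ∀ μ : Measure X, μ ≤ ν → ∀ f : X → ℝ≥0∞, Measurable f → (∀ x, f x ≤ 1) →
      Tendsto (fun m : ℕ => ∫⁻ x, ((opT κ)^[m] f) x ∂μ) atTop (𝓝 (μ univ * ∫⁻ x, f x ∂ν))) :
    Mixing shift (chainLaw κ ν) := by
  refine mixing_of_basic (shift_preserving hinv)
    (C := measurableCylinders (fun _ : ℕ => X))
    (D := squareCylinders (fun _ : ℕ => {t : Set X | MeasurableSet t}))
    generateFrom_measurableCylinders.symm isPiSystem_measurableCylinders
    generateFrom_squareCylinders.symm
    (isPiSystem_squareCylinders (fun _ ↦ MeasurableSpace.isPiSystem_measurableSet) (by simp)) ?_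
  intro A hA B hB
  obtain ⟨N, S, mS, rfl⟩ : ∃ N S, MeasurableSet S ∧ A = cylinder (Finset.Iic N) S := by
    simpa [measurableCylinders_nat] using hA
  obtain ⟨B, l, hBm, rfl⟩ := exists_ev_of_squareCylinder hB
  exact mixing_basic hinv hW hBm l N mS

end H61.MC
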