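import Pool.Agent.T6.H61.QP.Stat

open MeasureTheory Set Metric Filter
open scoped ENNReal NNReal Topology

namespace H61.QP

/-- A function on the circle whose lift is `C^1` is Lipschitz. -/
theorem exists_lipschitz {h : UnitAddCircle → ℝ}
    (hh : ContDiff ℝ 1 (fun t : ℝ => h (t : UnitAddCircle))) : ∃ L : ℝ≥0, LipschitzWith L h := by
  set f : ℝ → ℝ := fun t => h (t : UnitAddCircle) with hf
  have hper : Function.Periodic f 1 := by
    intro t
    simp only [hf]
    congr 1
    have : ((1 : ℝ) : UnitAddCircle) = 0 := AddCircle.coe_period 1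
    rw [AddCircle.coe_add, this, add_zero]
  have hd : Continuous (deriv f) := hh.continuous_deriv le_rfl
  have hdper : Function.Periodic (deriv f) 1 := by
    intro t
    have : (fun s => f (s + 1)) = f := funext hper
    calc deriv f (t + 1) = deriv (fun s => f (s + 1)) t := (deriv_comp_add_const f 1 t).symm
      _ = deriv f t := by rw [this]
  obtain ⟨C, hC⟩ := (isCompact_Icc (a := (0 : ℝ)) (b := 1)).exists_bound_of_continuousOn
    hd.continuousOn
  have hC' : ∀ t, ‖deriv f t‖ ≤ C := by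
    intro t
    obtain ⟨s, hs, hst⟩ := hdper.exists_mem_Ico₀ zero_lt_one t
    rw [hst]
    exact hC s ⟨hs.1, hs.2.le⟩
  have hC0 : 0 ≤ C := (norm_nonneg _).trans (hC' 0)
  refine ⟨⟨C, hC0⟩, LipschitzWith.of_dist_le_mul ?_⟩
  have hlip : LipschitzWith ⟨C, hC0⟩ f := by
    apply lipschitzWith_of_nnnorm_deriv_le (hh.differentiable one_ne_zero)
    intro t
    exact hC' t
  intro x y
  obtain ⟨s, rfl⟩ : ∃ s : ℝ, (s : UnitAddCircle) = x := QuotientAddGroup.mk_surjective x
  obtain ⟨t, rfl⟩ : ∃ t : ℝ, (t : UnitAddCircle) = y := QuotientAddGroup.mk_surjective y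
  have h1 := hlip.dist_le_mul s (t + round (s - t))
  have h2 : f (t + round (s - t)) = f t := by
    have := hper.int_mul (round (s - t)) t
    simpa using this
  rw [h2] at h1
  have h3 : dist (s : UnitAddCircle) (t : UnitAddCircle) = dist s (t + round (s - t)) := by
    rw [dist_eq_norm, ← AddCircle.coe_sub, UnitAddCircle.norm_eq, Real.dist_eq]
    congr 1
    ring
  rw [h3]
  exact h1

theorem continuous_of_lift {h : UnitAddCircle → ℝ}
    (hh : ContDiff ℝ 1 (fun t : ℝ => h (t : UnitAddCircle))) : Continuous h := by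
  obtain ⟨L, hL⟩ := exists_lipschitz hh
  exact hL.continuous

theorem exists_lipschitz_G {p : UnitAddCircle → ℝ}
    (hp : ContDiff ℝ 1 (fun t : ℝ => p (t : UnitAddCircle)))
    (hp0 : ∀ y, 0 < p y) (hp1 : ∀ y, p y < 1) :
    ∃ L : ℝ≥0, LipschitzWith L (fun y => Real.log (p y) - Real.log (1 - p y)) := by
  apply exists_lipschitz
  apply ContDiff.sub
  · exact hp.log (fun t => (hp0 _).ne')
  · exact (contDiff_const.sub hp).log (fun t => (sub_pos.2 (hp1 _)).ne')

/-- the conformal measure attached to a stationary measure -/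
theorem conf_of_stationary {α : ℝ} (hα : Irrational α) {p : UnitAddCircle → ℝ} (hp : Continuous p)
    (hp0 : ∀ y, 0 < p y) (hp1 : ∀ y, p y < 1)
    (hsym : ∫ y, Real.log (p y) = ∫ y, Real.log (1 - p y))
    {ν : Measure UnitAddCircle} (hν : Stationary α p ν) :
    Conf α (fun y => Real.log (p y) - Real.log (1 - p y))
      (ν.withDensity (fun y => ENNReal.ofReal (1 - p y))) := by
  intro f hf
  have hsub : Measurable (fun x : UnitAddCircle => x - (α : UnitAddCircle)) :=
    measurable_id.sub_const _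
  have hpm : Measurable p := hp.measurable
  have hqm : Measurable (fun y => ENNReal.ofReal (1 - p y)) := by fun_prop
  rw [lintegral_withDensity_eq_lintegral_mul _ hqm
      (g := fun a => f (a - (α : UnitAddCircle))) (hf.comp hsub),
    lintegral_withDensity_eq_lintegral_mul _ hqm (by fun_prop)]
  have := balance hα hp hp0 hp1 hsym hν f hf
  simp only [Pi.mul_apply]
  rw [← this]
  congr 1
  ext y
  rw [Real.exp_sub, Real.exp_log (hp0 y), Real.exp_log (sub_pos.2 (hp1 y))]
  have h1 := sub_pos.2 (hp1 y)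
  calc ENNReal.ofReal (p y) * f y = ENNReal.ofReal ((1 - p y) * (p y / (1 - p y))) * f y := by
        congr 2
        field_simp
    _ = _ := by
        rw [ENNReal.ofReal_mul h1.le]; ring

theorem mass_pos {p : UnitAddCircle → ℝ} (hp : Continuous p)
    (hp1 : ∀ y, p y < 1) (ν : Measure UnitAddCircle) [IsProbabilityMeasure ν] :
    (ν.withDensity (fun y => ENNReal.ofReal (1 - p y))) univ ≠ 0 := by
  rw [withDensity_apply _ MeasurableSet.univ, Measure.restrict_univ, ne_eq,
    lintegral_eq_zero_iff (by have := hp.measurable; fun_prop)]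
  intro h
  have h2 : ∀ᵐ y ∂ν, False := by
    filter_upwards [h] with y hy
    simp only [Pi.zero_apply, ENNReal.ofReal_eq_zero] at hy
    have := hp1 y
    linarith
  rw [ae_iff] at h2
  simp at h2

theorem mass_fin {p : UnitAddCircle → ℝ} (hp : Continuous p)
    (ν : Measure UnitAddCircle) [IsProbabilityMeasure ν] :
    (ν.withDensity (fun y => ENNReal.ofReal (1 - p y))) univ ≠ ∞ := by
  have f0 : IsFiniteMeasure (ν.withDensity (fun y => ENNReal.ofReal (1 - p y))) := by
    apply isFiniteMeasure_withDensity_ofReal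
    exact (integrable_cont ν (by fun_prop)).2
  exact measure_ne_top _ _

/-- General uniqueness: two probability measures, whose `q`-weighted versions are conformal for
the same data, agree. -/
theorem unique_of_conf {β : ℝ} (hβ : Irrational β) {G : UnitAddCircle → ℝ} {L : ℝ≥0}
    (hL : LipschitzWith L G) {p : UnitAddCircle → ℝ} (hp : Continuous p)
    (hp1 : ∀ y, p y < 1)
    (ν₁ ν₂ : Measure UnitAddCircle) [i₁ : IsProbabilityMeasure ν₁] [i₂ : IsProbabilityMeasure ν₂]
    (h₁ : Conf β G (ν₁.withDensity (fun y => ENNReal.ofReal (1 - p y))))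
    (h₂ : Conf β G (ν₂.withDensity (fun y => ENNReal.ofReal (1 - p y)))) : ν₁ = ν₂ := by
  set w : UnitAddCircle → ℝ≥0∞ := fun y => ENNReal.ofReal (1 - p y) with hw
  have hwm : Measurable w := by have := hp.measurable; fun_prop
  have hw0 : ∀ y, w y ≠ 0 := by
    intro y
    simp only [hw, ne_eq, ENNReal.ofReal_eq_zero, not_le]
    exact sub_pos.2 (hp1 y)
  have hwt : ∀ y, w y ≠ ∞ := fun y => ENNReal.ofReal_ne_top
  have norm : ∀ ν : Measure UnitAddCircle, IsProbabilityMeasure ν →
      Conf β G (ν.withDensity w) →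
      IsProbabilityMeasure (((ν.withDensity w) univ)⁻¹ • ν.withDensity w) ∧
      Conf β G (((ν.withDensity w) univ)⁻¹ • ν.withDensity w) := by
    intro ν hν h
    constructor
    · constructor
      rw [Measure.smul_apply, smul_eq_mul]
      exact ENNReal.inv_mul_cancel (mass_pos hp hp1 ν) (mass_fin hp ν)
    · intro f hf
      rw [lintegral_smul_measure, lintegral_smul_measure, h f hf]
  obtain ⟨j₁, k₁⟩ := norm ν₁ i₁ h₁
  obtain ⟨j₂, k₂⟩ := norm ν₂ i₂ h₂
  have heq := conf_unique hβ hL _ _ k₁ k₂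
  -- recover ν from the normalised measure
  set M₁ := (ν₁.withDensity w) univ with hM₁
  set M₂ := (ν₂.withDensity w) univ with hM₂
  have hM₁0 : M₁ ≠ 0 := mass_pos hp hp1 ν₁
  have hM₂0 : M₂ ≠ 0 := mass_pos hp hp1 ν₂
  have hM₁t : M₁ ≠ ∞ := mass_fin hp ν₁
  have hM₂t : M₂ ≠ ∞ := mass_fin hp ν₂
  have hback : ∀ ν : Measure UnitAddCircle, (ν.withDensity w).withDensity w⁻¹ = ν := by
    intro ν
    rw [← withDensity_mul _ hwm hwm.inv]
    have : (w * w⁻¹) = 1 := by
      ext y
      simp only [Pi.mul_apply, Pi.one_apply, Pi.inv_apply]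
      exact ENNReal.mul_inv_cancel (hw0 y) (hwt y)
    rw [this, withDensity_one]
  have h3 : M₁⁻¹ • ν₁ = M₂⁻¹ • ν₂ := by
    have : (M₁⁻¹ • ν₁.withDensity w).withDensity w⁻¹ = (M₂⁻¹ • ν₂.withDensity w).withDensity w⁻¹ := by
      rw [heq]
    rw [withDensity_smul_measure, withDensity_smul_measure, hback, hback] at this
    exact this
  have h4 : M₁⁻¹ = M₂⁻¹ := by
    have := congrArg (fun m : Measure UnitAddCircle => m univ) h3
    simpa [measure_univ] using this
  rw [h4] at h3
  have h5 : M₂ • (M₂⁻¹ • ν₁) = M₂ • (M₂⁻¹ • ν₂) := by rw [h3]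
  rw [smul_smul, smul_smul, ENNReal.mul_inv_cancel hM₂0 hM₂t, one_smul, one_smul] at h5
  exact h5

theorem stationary_unique {α : ℝ} (hα : Irrational α) {p : UnitAddCircle → ℝ}
    (hp : ContDiff ℝ 1 (fun t : ℝ => p (t : UnitAddCircle)))
    (hp0 : ∀ y, 0 < p y) (hp1 : ∀ y, p y < 1)
    (hsym : ∫ y, Real.log (p y) = ∫ y, Real.log (1 - p y))
    {ν₁ ν₂ : Measure UnitAddCircle} (h₁ : Stationary α p ν₁) (h₂ : Stationary α p ν₂) :
    ν₁ = ν₂ := by
  have hpc := continuous_of_lift hp
  obtain ⟨L, hL⟩ := exists_lipschitz_G hp hp0 hp1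
  have i₁ := h₁.1
  have i₂ := h₂.1
  exact unique_of_conf hα hL hpc hp1 ν₁ ν₂ (conf_of_stationary hα hpc hp0 hp1 hsym h₁)
    (conf_of_stationary hα hpc hp0 hp1 hsym h₂)

end H61.QP
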