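import Pool.Agent.T6.H61.QP.MixW2
import Pool.Agent.T6.H61.QP.MC2

open MeasureTheory Set Metric Filter ProbabilityTheory
open scoped ENNReal NNReal Topology

namespace H61.QP

/-- The one-step transition kernel of `(X_t)`: from `y` the chain jumps to `y + α` with
probability `p(y)` and to `y - α` with probability `1 - p(y)`. -/
noncomputable def stepKernel (α : ℝ) (p : C(UnitAddCircle, Set.Ioo (0 : ℝ) 1)) :
    Kernel UnitAddCircle UnitAddCircle where
  toFun y := ENNReal.ofReal (p y) • Measure.dirac (y + (α : UnitAddCircle)) +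
    ENNReal.ofReal (1 - p y) • Measure.dirac (y - (α : UnitAddCircle))
  measurable' := by
    refine Measure.measurable_of_measurable_coe _ fun s hs => ?_
    have hp : Measurable (fun y => (p y : ℝ)) :=
      (continuous_subtype_val.comp p.continuous).measurable
    have h1 : Measurable fun y : UnitAddCircle => s.indicator (1 : UnitAddCircle → ℝ≥0∞)
        (y + (α : UnitAddCircle)) :=
      (measurable_one.indicator hs).comp (measurable_id.add_const _)
    have h2 : Measurable fun y : UnitAddCircle => s.indicator (1 : UnitAddCircle → ℝ≥0∞)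
        (y - (α : UnitAddCircle)) :=
      (measurable_one.indicator hs).comp (measurable_id.sub_const _)
    have e : (fun y : UnitAddCircle => (ENNReal.ofReal (p y) •
        Measure.dirac (y + (α : UnitAddCircle)) +
        ENNReal.ofReal (1 - p y) • Measure.dirac (y - (α : UnitAddCircle))) s) =
        fun y => ENNReal.ofReal (p y) * s.indicator 1 (y + (α : UnitAddCircle)) +
          ENNReal.ofReal (1 - p y) * s.indicator 1 (y - (α : UnitAddCircle)) := by
      ext y
      rw [Measure.add_apply, Measure.smul_apply, Measure.smul_apply, Measure.dirac_apply' _ hs,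
        Measure.dirac_apply' _ hs, smul_eq_mul, smul_eq_mul]
    rw [e]
    exact (hp.ennreal_ofReal.mul h1).add ((measurable_const.sub hp).ennreal_ofReal.mul h2)

theorem stepKernel_apply (α : ℝ) (p : C(UnitAddCircle, Set.Ioo (0 : ℝ) 1)) (y : UnitAddCircle) :
    stepKernel α p y = ENNReal.ofReal (p y) • Measure.dirac (y + (α : UnitAddCircle)) +
    ENNReal.ofReal (1 - p y) • Measure.dirac (y - (α : UnitAddCircle)) := rfl

instance (α : ℝ) (p : C(UnitAddCircle, Set.Ioo (0 : ℝ) 1)) : IsMarkovKernel (stepKernel α p) := by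
  refine ⟨fun y => ⟨?_⟩⟩
  rw [stepKernel_apply, Measure.add_apply, Measure.smul_apply, Measure.smul_apply, measure_univ,
    measure_univ, smul_eq_mul, smul_eq_mul, mul_one, mul_one, ← ENNReal.ofReal_add]
  · simp
  · exact (p y).2.1.le
  · exact (sub_pos.2 (p y).2.2).le

variable {α : ℝ} {p : C(UnitAddCircle, Set.Ioo (0 : ℝ) 1)}

theorem opT_step (f : UnitAddCircle → ℝ≥0∞) (hf : Measurable f) (y : UnitAddCircle) :
    H61.MC.opT (stepKernel α p) f y = ENNReal.ofReal (p y) * f (y + (α : UnitAddCircle)) +
      ENNReal.ofReal (1 - p y) * f (y - (α : UnitAddCircle)) := by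
  rw [H61.MC.opT, stepKernel_apply, lintegral_add_measure, lintegral_smul_measure,
    lintegral_smul_measure, lintegral_dirac' _ hf, lintegral_dirac' _ hf, smul_eq_mul, smul_eq_mul]

theorem opT_iter_ofReal (h : Env α (fun y => (p y : ℝ))) {f : UnitAddCircle → ℝ} (hf : BM f)
    (h0 : ∀ y, 0 ≤ f y ∧ f y ≤ 1) (n : ℕ) :
    (H61.MC.opT (stepKernel α p))^[n] (fun y => ENNReal.ofReal (f y)) =
      fun y => ENNReal.ofReal ((opP α (fun y => (p y : ℝ)))^[n] f y) := by
  induction n with
  | zero => rfl
  | succ n ih =>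
    rw [Function.iterate_succ_apply', Function.iterate_succ_apply', ih]
    have hb := iter_bounds h h0 n
    have hB := bm_iter h hf n
    ext y
    rw [opT_step _ hB.1.ennreal_ofReal]
    simp only [opP]
    rw [ENNReal.ofReal_add, ENNReal.ofReal_mul, ENNReal.ofReal_mul]
    · exact (sub_pos.2 (p y).2.2).le
    · exact (p y).2.1.le
    · exact mul_nonneg (p y).2.1.le (hb _).1
    · exact mul_nonneg (sub_pos.2 (p y).2.2).le (hb _).1

theorem inv_step (h : Env α (fun y => (p y : ℝ))) {ν : Measure UnitAddCircle}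
    (hν : Stationary α (fun y => (p y : ℝ)) ν) (f : UnitAddCircle → ℝ≥0∞) (hf : Measurable f) :
    ∫⁻ y, H61.MC.opT (stepKernel α p) f y ∂ν = ∫⁻ y, f y ∂ν := by
  have hprob := hν.1
  have hpm : Measurable (fun y => (p y : ℝ)) := h.cont.measurable
  have hadd : Measurable (fun y : UnitAddCircle => f (y + (α : UnitAddCircle))) :=
    hf.comp (measurable_id.add_const _)
  have hsub : Measurable (fun y : UnitAddCircle => f (y - (α : UnitAddCircle))) :=
    hf.comp (measurable_id.sub_const _)
  simp_rw [opT_step f hf]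
  have m1 : Measurable (fun y : UnitAddCircle => ENNReal.ofReal (p y) *
      f (y + (α : UnitAddCircle))) := hpm.ennreal_ofReal.mul hadd
  have m2 : Measurable (fun y : UnitAddCircle => ENNReal.ofReal (1 - p y) * f y) :=
    (measurable_const.sub hpm).ennreal_ofReal.mul hf
  rw [lintegral_add_left m1]
  have b1 := balance h.irr h.cont h.pos h.lt h.sym hν _ hadd
  have b2 := balance h.irr h.cont h.pos h.lt h.sym hν _ hf
  simp only [sub_add_cancel] at b1
  rw [b1, ← b2, ← lintegral_add_left m2]
  apply lintegral_congr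
  intro y
  rw [← add_mul, ← ENNReal.ofReal_add (sub_pos.2 (h.lt y)).le (h.pos y).le]
  simp

theorem mixing_main (h : Env α (fun y => (p y : ℝ))) {ν : Measure UnitAddCircle}
    (hν : Stationary α (fun y => (p y : ℝ)) ν) :
    MeasurePreserving H61.MC.shift (H61.MC.chainLaw (stepKernel α p) ν)
      (H61.MC.chainLaw (stepKernel α p) ν) ∧
    H61.MC.Mixing H61.MC.shift (H61.MC.chainLaw (stepKernel α p) ν) := by
  have hprob := hν.1
  refine ⟨H61.MC.shift_preserving (inv_step h hν), H61.MC.mixing_chain (inv_step h hν) ?_⟩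
  intro μ hμ f hf hf1
  have hfin : IsFiniteMeasure μ := ⟨(hμ univ).trans_lt (measure_lt_top ν univ)⟩
  have hfne : ∀ y, f y ≠ ∞ := fun y => ((hf1 y).trans_lt ENNReal.one_lt_top).ne
  set g : UnitAddCircle → ℝ := fun y => (f y).toReal with hg
  have hfg : f = fun y => ENNReal.ofReal (g y) := by
    ext y; rw [hg]; simp only; rw [ENNReal.ofReal_toReal (hfne y)]
  have hgm : Measurable g := hf.ennreal_toReal
  have hg01 : ∀ y, 0 ≤ g y ∧ g y ≤ 1 := by
    intro y
    refine ⟨ENNReal.toReal_nonneg, ?_⟩
    have := ENNReal.toReal_mono ENNReal.one_ne_top (hf1 y)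
    simpa using this
  have hgB : BM g := ⟨hgm, 1, fun y => by rw [abs_of_nonneg (hg01 y).1]; exact (hg01 y).2⟩
  have h1 := weak_limit_meas h hν hgm hg01 hμ
  have h2 := ENNReal.tendsto_ofReal h1
  have e1 : ENNReal.ofReal (μ.real univ * ∫ y, g y ∂ν) = μ univ * ∫⁻ x, f x ∂ν := by
    rw [ENNReal.ofReal_mul measureReal_nonneg, Measure.real, ENNReal.ofReal_toReal (measure_ne_top _ _),
      ofReal_integral_eq_lintegral_ofReal (hgB.integrable ν) (Eventually.of_forall fun y => (hg01 y).1),
      ← hfg]
  rw [e1] at h2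
  refine h2.congr ?_
  intro n
  rw [ofReal_integral_eq_lintegral_ofReal ((bm_iter h hgB n).integrable μ)
    (Eventually.of_forall fun y => (iter_bounds h hg01 n y).1), hfg, opT_iter_ofReal h hgB hg01 n]

end H61.QP
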