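import Pool.Agent.T6.H61.QP.Exist

open MeasureTheory Set Metric Filter
open scoped ENNReal NNReal Topology

namespace H61.QP

/-- bounded measurable functions -/
def BM (f : UnitAddCircle → ℝ) : Prop := Measurable f ∧ ∃ C : ℝ, ∀ y, |f y| ≤ C

theorem BM.integrable {f : UnitAddCircle → ℝ} (hf : BM f) (μ : Measure UnitAddCircle)
    [IsFiniteMeasure μ] : Integrable f μ := by
  obtain ⟨hm, C, hC⟩ := hf
  exact Integrable.of_bound hm.aestronglyMeasurable C (Eventually.of_forall hC)

theorem BM.mul {f g : UnitAddCircle → ℝ} (hf : BM f) (hg : BM g) : BM (fun y => f y * g y) := by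
  obtain ⟨hm, C, hC⟩ := hf
  obtain ⟨hm', C', hC'⟩ := hg
  refine ⟨hm.mul hm', C * C', fun y => ?_⟩
  rw [abs_mul]
  exact mul_le_mul (hC y) (hC' y) (abs_nonneg _) ((abs_nonneg _).trans (hC y))

theorem BM.add {f g : UnitAddCircle → ℝ} (hf : BM f) (hg : BM g) : BM (fun y => f y + g y) := by
  obtain ⟨hm, C, hC⟩ := hf
  obtain ⟨hm', C', hC'⟩ := hg
  exact ⟨hm.add hm', C + C', fun y => (abs_add_le _ _).trans (add_le_add (hC y) (hC' y))⟩

theorem BM.sub {f g : UnitAddCircle → ℝ} (hf : BM f) (hg : BM g) : BM (fun y => f y - g y) := by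
  obtain ⟨hm, C, hC⟩ := hf
  obtain ⟨hm', C', hC'⟩ := hg
  exact ⟨hm.sub hm', C + C', fun y => (abs_sub _ _).trans (add_le_add (hC y) (hC' y))⟩

theorem BM.sq {f : UnitAddCircle → ℝ} (hf : BM f) : BM (fun y => f y ^ 2) := by
  have := hf.mul hf
  simpa [pow_two] using this

theorem BM.shift {f : UnitAddCircle → ℝ} (hf : BM f) (a : UnitAddCircle) :
    BM (fun y => f (y + a)) := by
  obtain ⟨hm, C, hC⟩ := hf
  exact ⟨hm.comp (measurable_id.add_const a), C, fun y => hC _⟩

theorem BM.shift' {f : UnitAddCircle → ℝ} (hf : BM f) (a : UnitAddCircle) :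
    BM (fun y => f (y - a)) := by
  obtain ⟨hm, C, hC⟩ := hf
  exact ⟨hm.comp (measurable_id.sub_const a), C, fun y => hC _⟩

theorem BM.abs {f : UnitAddCircle → ℝ} (hf : BM f) : BM (fun y => |f y|) := by
  obtain ⟨hm, C, hC⟩ := hf
  exact ⟨continuous_abs.measurable.comp hm, C, fun y => by simpa using hC y⟩

theorem bm_cont {f : UnitAddCircle → ℝ} (hf : Continuous f) : BM f := by
  refine ⟨hf.measurable, ?_⟩
  obtain ⟨C, hC⟩ := isCompact_univ.exists_bound_of_continuousOn (f := f) hf.continuousOn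
  exact ⟨C, fun y => hC y (mem_univ y)⟩

theorem bm_const (c : ℝ) : BM (fun _ => c) := ⟨measurable_const, |c|, fun _ => le_rfl⟩

/-- Standing assumptions on the environment. -/
structure Env (α : ℝ) (p : UnitAddCircle → ℝ) : Prop where
  irr : Irrational α
  smooth : ContDiff ℝ 1 (fun t : ℝ => p (t : UnitAddCircle))
  pos : ∀ y, 0 < p y
  lt : ∀ y, p y < 1
  sym : ∫ y, Real.log (p y) = ∫ y, Real.log (1 - p y)

variable {α : ℝ} {p : UnitAddCircle → ℝ}

theorem Env.cont (h : Env α p) : Continuous p := continuous_of_lift h.smooth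

theorem balance_real (h : Env α p) {ν : Measure UnitAddCircle} (hν : Stationary α p ν)
    {Φ : UnitAddCircle → ℝ} (hΦ : BM Φ) :
    ∫ y, p y * Φ y ∂ν = ∫ y, (1 - p y) * Φ (y - (α : UnitAddCircle)) ∂ν := by
  have hprob := hν.1
  have hp := h.cont
  have hpmm : Measurable p := hp.measurable
  have hsub : Measurable (fun x : UnitAddCircle => x - (α : UnitAddCircle)) :=
    measurable_id.sub_const _
  have hpm : Measurable (fun y => ENNReal.ofReal (p y)) := by fun_prop
  have hqm : Measurable (fun y => ENNReal.ofReal (1 - p y)) := by fun_prop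
  have heq : ν.withDensity (fun y => ENNReal.ofReal (p y)) =
      (ν.withDensity (fun y => ENNReal.ofReal (1 - p y))).map
        (fun x => x - (α : UnitAddCircle)) := by
    refine Measure.ext fun E hE => ?_
    rw [withDensity_apply _ hE, Measure.map_apply hsub hE, withDensity_apply _ (hsub hE),
      ← lintegral_indicator hE, ← lintegral_indicator (hsub hE)]
    have hb := balance h.irr hp h.pos h.lt h.sym hν (E.indicator 1) (measurable_one.indicator hE)
    have e1 : ∀ y, E.indicator (fun y => ENNReal.ofReal (p y)) y =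
        ENNReal.ofReal (p y) * E.indicator 1 y := by
      intro y
      by_cases hy : y ∈ E
      · rw [indicator_of_mem hy, indicator_of_mem hy]; simp
      · rw [indicator_of_notMem hy, indicator_of_notMem hy]; simp
    have e2 : ∀ y, ((fun x : UnitAddCircle => x - (α : UnitAddCircle)) ⁻¹' E).indicator
        (fun y => ENNReal.ofReal (1 - p y)) y =
        ENNReal.ofReal (1 - p y) * E.indicator 1 (y - (α : UnitAddCircle)) := by
      intro y
      by_cases hy : y - (α : UnitAddCircle) ∈ E
      · rw [indicator_of_mem hy, indicator_of_mem (by exact hy)]; simp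
      · rw [indicator_of_notMem hy, indicator_of_notMem (by exact hy)]; simp
    simp_rw [e1, e2]
    exact hb
  have a1 : ∫ y, Φ y ∂(ν.withDensity (fun y => ENNReal.ofReal (p y))) = ∫ y, p y * Φ y ∂ν := by
    rw [integral_withDensity_eq_integral_toReal_smul hpm (by simp)]
    congr 1; ext y
    rw [ENNReal.toReal_ofReal (h.pos y).le, smul_eq_mul]
  have a2 : ∫ y, Φ y ∂((ν.withDensity (fun y => ENNReal.ofReal (1 - p y))).map
      (fun x => x - (α : UnitAddCircle))) =
      ∫ y, (1 - p y) * Φ (y - (α : UnitAddCircle)) ∂ν := by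
    rw [integral_map hsub.aemeasurable hΦ.1.aestronglyMeasurable,
      integral_withDensity_eq_integral_toReal_smul hqm (by simp)]
    congr 1; ext y
    rw [ENNReal.toReal_ofReal (sub_pos.2 (h.lt y)).le, smul_eq_mul]
  rw [← a1, ← a2, heq]

theorem balance_real' (h : Env α p) {ν : Measure UnitAddCircle} (hν : Stationary α p ν)
    {Φ : UnitAddCircle → ℝ} (hΦ : BM Φ) :
    ∫ y, (1 - p y) * Φ y ∂ν = ∫ y, p y * Φ (y + (α : UnitAddCircle)) ∂ν := by
  rw [balance_real h hν (hΦ.shift _)]
  simp only [sub_add_cancel]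

theorem bm_opP (h : Env α p) {f : UnitAddCircle → ℝ} (hf : BM f) : BM (opP α p f) := by
  have h1 : BM p := bm_cont h.cont
  exact (h1.mul (hf.shift _)).add (((bm_const 1).sub h1).mul (hf.shift' _))

theorem bm_iter (h : Env α p) {f : UnitAddCircle → ℝ} (hf : BM f) (n : ℕ) :
    BM ((opP α p)^[n] f) := by
  induction n with
  | zero => exact hf
  | succ n ih => rw [Function.iterate_succ_apply']; exact bm_opP h ih

theorem stat_bm (h : Env α p) {ν : Measure UnitAddCircle} (hν : Stationary α p ν)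
    {f : UnitAddCircle → ℝ} (hf : BM f) : ∫ y, opP α p f y ∂ν = ∫ y, f y ∂ν := by
  have hprob := hν.1
  have h1 : BM p := bm_cont h.cont
  have hq : BM (fun y => 1 - p y) := (bm_const 1).sub h1
  have e1 : ∫ y, opP α p f y ∂ν = ∫ y, p y * f (y + (α : UnitAddCircle)) ∂ν +
      ∫ y, (1 - p y) * f (y - (α : UnitAddCircle)) ∂ν :=
    integral_add ((h1.mul (hf.shift _)).integrable ν) ((hq.mul (hf.shift' _)).integrable ν)
  rw [e1, ← balance_real' h hν hf, ← balance_real h hν hf,
    ← integral_add ((hq.mul hf).integrable ν) ((h1.mul hf).integrable ν)]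
  congr 1; ext y; ring

theorem iter_bounds (h : Env α p) {f : UnitAddCircle → ℝ} {a b : ℝ} (hf : ∀ y, a ≤ f y ∧ f y ≤ b)
    (n : ℕ) : ∀ y, a ≤ (opP α p)^[n] f y ∧ (opP α p)^[n] f y ≤ b := by
  induction n with
  | zero => exact hf
  | succ n ih =>
    intro y
    rw [Function.iterate_succ_apply']
    simp only [opP]
    have h1 := ih (y + (α : UnitAddCircle))
    have h2 := ih (y - (α : UnitAddCircle))
    have p0 := h.pos y
    have p1 := h.lt y
    constructor
    · nlinarith [mul_le_mul_of_nonneg_left h1.1 p0.le,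
        mul_le_mul_of_nonneg_left h2.1 (sub_pos.2 p1).le]
    · nlinarith [mul_le_mul_of_nonneg_left h1.2 p0.le,
        mul_le_mul_of_nonneg_left h2.2 (sub_pos.2 p1).le]

theorem iter_integral (h : Env α p) {ν : Measure UnitAddCircle} (hν : Stationary α p ν)
    {f : UnitAddCircle → ℝ} (hf : BM f) (n : ℕ) :
    ∫ y, (opP α p)^[n] f y ∂ν = ∫ y, f y ∂ν := by
  induction n with
  | zero => rfl
  | succ n ih =>
    simp only [Function.iterate_succ_apply']
    rw [stat_bm h hν (bm_iter h hf n), ih]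

/-- The energy of the difference of the two shifts tends to zero. -/
theorem energy (h : Env α p) {ν : Measure UnitAddCircle} (hν : Stationary α p ν)
    {f : UnitAddCircle → ℝ} (hf : BM f) :
    Tendsto (fun n : ℕ => ∫ y, |(opP α p)^[n] f (y + (α : UnitAddCircle)) -
      (opP α p)^[n] f (y - (α : UnitAddCircle))| ∂ν) atTop (𝓝 0) := by
  have hprob := hν.1
  have hpB : BM p := bm_cont h.cont
  have hq : BM (fun y => 1 - p y) := (bm_const 1).sub hpB
  set F : ℕ → UnitAddCircle → ℝ := fun n => (opP α p)^[n] f with hF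
  have hFb : ∀ n, BM (F n) := bm_iter h hf
  set D : ℕ → UnitAddCircle → ℝ := fun n y =>
    F n (y + (α : UnitAddCircle)) - F n (y - (α : UnitAddCircle)) with hD
  have hDb : ∀ n, BM (D n) := fun n => ((hFb n).shift _).sub ((hFb n).shift' _)
  set a : ℕ → ℝ := fun n => ∫ y, F n y ^ 2 ∂ν with ha
  -- identity
  have hid : ∀ n, ∫ y, (p y * (1 - p y)) * D n y ^ 2 ∂ν = a n - a (n + 1) := by
    intro n
    have e1 : a n = ∫ y, opP α p (fun y => F n y ^ 2) y ∂ν := (stat_bm h hν (hFb n).sq).symm
    rw [e1, ha]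
    simp only
    rw [← integral_sub ((bm_opP h (hFb n).sq).integrable ν) ((hFb (n + 1)).sq.integrable ν)]
    congr 1
    ext y
    simp only [hD, hF, Function.iterate_succ_apply']
    simp only [opP]
    ring
  -- lower bound on p(1-p)
  obtain ⟨δ, hδ, hδp⟩ : ∃ δ : ℝ, 0 < δ ∧ ∀ y, δ ≤ p y * (1 - p y) := by
    have hc : Continuous fun y => p y * (1 - p y) := by have := h.cont; fun_prop
    obtain ⟨y₀, -, hy₀⟩ := isCompact_univ.exists_isMinOn (univ_nonempty) hc.continuousOn
    exact ⟨p y₀ * (1 - p y₀), mul_pos (h.pos _) (sub_pos.2 (h.lt _)), fun y => hy₀ (mem_univ y)⟩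
  have hanti : Antitone a := by
    apply antitone_nat_of_succ_le
    intro n
    have : 0 ≤ ∫ y, (p y * (1 - p y)) * D n y ^ 2 ∂ν := by
      apply integral_nonneg
      intro y
      exact mul_nonneg (mul_nonneg (h.pos y).le (sub_pos.2 (h.lt y)).le) (sq_nonneg _)
    rw [hid n] at this
    linarith
  have hbdd : BddBelow (range a) := ⟨0, by
    rintro _ ⟨n, rfl⟩
    exact integral_nonneg (fun y => sq_nonneg _)⟩
  have hlim := tendsto_atTop_ciInf hanti hbdd
  have hdiff : Tendsto (fun n => a n - a (n + 1)) atTop (𝓝 0) := by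
    have := hlim.sub (hlim.comp (tendsto_add_atTop_nat 1))
    rw [sub_self] at this
    exact this
  -- Cauchy-Schwarz
  have hCS : ∀ n, (∫ y, |D n y| ∂ν) ^ 2 ≤ ∫ y, D n y ^ 2 ∂ν := by
    intro n
    set m := ∫ y, |D n y| ∂ν with hm
    have h0 : 0 ≤ ∫ y, (|D n y| - m) ^ 2 ∂ν := integral_nonneg (fun y => sq_nonneg _)
    have e : ∫ y, (|D n y| - m) ^ 2 ∂ν = ∫ y, D n y ^ 2 ∂ν - m ^ 2 := by
      have e1 : ∀ y, (|D n y| - m) ^ 2 = D n y ^ 2 - (2 * m * |D n y| - m ^ 2) := by
        intro y
        have : |D n y| ^ 2 = D n y ^ 2 := sq_abs _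
        nlinarith
      simp_rw [e1]
      rw [integral_sub ((hDb n).sq.integrable ν)
        ((((bm_const (2 * m)).mul (hDb n).abs).sub (bm_const (m ^ 2))).integrable ν),
        integral_sub (((bm_const (2 * m)).mul (hDb n).abs).integrable ν)
          ((bm_const (m ^ 2)).integrable ν), integral_const_mul, ← hm]
      simp
      ring
    rw [e] at h0
    linarith
  have hsq : Tendsto (fun n => (∫ y, |D n y| ∂ν) ^ 2) atTop (𝓝 0) := by
    have hb : ∀ n, (∫ y, |D n y| ∂ν) ^ 2 ≤ δ⁻¹ * (a n - a (n + 1)) := by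
      intro n
      refine (hCS n).trans ?_
      rw [← hid n, ← integral_const_mul]
      apply integral_mono ((hDb n).sq.integrable ν)
      · exact ((bm_const δ⁻¹).mul ((hpB.mul hq).mul (hDb n).sq)).integrable ν
      · intro y
        simp only
        have h1 := hδp y
        have h2 : 1 ≤ δ⁻¹ * (p y * (1 - p y)) := by
          rw [inv_mul_eq_div, le_div_iff₀ hδ]; linarith
        nlinarith [sq_nonneg (D n y)]
    have := hdiff.const_mul δ⁻¹
    rw [mul_zero] at this
    exact squeeze_zero (fun n => sq_nonneg _) hb this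
  have := hsq.sqrt
  rw [Real.sqrt_zero] at this
  refine this.congr ?_
  intro n
  rw [Real.sqrt_sq]
  exact integral_nonneg (fun y => abs_nonneg _)

/-- The approximate conformality. -/
theorem approx_conf (h : Env α p) {ν : Measure UnitAddCircle} (hν : Stationary α p ν)
    {f : UnitAddCircle → ℝ} (hf : BM f) {ψ : UnitAddCircle → ℝ} (hψ : Continuous ψ) :
    Tendsto (fun n : ℕ => ∫ y, (ψ (y - (α : UnitAddCircle) - (α : UnitAddCircle)) * (1 - p y)) *
      (opP α p)^[n] f y ∂ν - ∫ y, (ψ y * p y * (p (y + (α : UnitAddCircle)) /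
        (1 - p (y + (α : UnitAddCircle))))) * (opP α p)^[n] f y ∂ν) atTop (𝓝 0) := by
  have hprob := hν.1
  have hpc := h.cont
  have hpB : BM p := bm_cont h.cont
  have hq : BM (fun y => 1 - p y) := (bm_const 1).sub hpB
  have hψB : BM ψ := bm_cont hψ
  have hr : BM (fun y => p y / (1 - p y)) := by
    apply bm_cont
    apply Continuous.div hpc (by fun_prop)
    intro y
    exact (sub_pos.2 (h.lt y)).ne'
  obtain ⟨-, C, hC⟩ := hψB
  have hψB : BM ψ := bm_cont hψ
  have key : ∀ n : ℕ, ∫ y, (ψ (y - (α : UnitAddCircle) - (α : UnitAddCircle)) * (1 - p y)) *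
      (opP α p)^[n] f y ∂ν - ∫ y, (ψ y * p y * (p (y + (α : UnitAddCircle)) /
        (1 - p (y + (α : UnitAddCircle))))) * (opP α p)^[n] f y ∂ν =
      ∫ y, (p y * ψ (y - (α : UnitAddCircle))) * ((opP α p)^[n] f (y + (α : UnitAddCircle)) -
        (opP α p)^[n] f (y - (α : UnitAddCircle))) ∂ν := by
    intro n
    set F := (opP α p)^[n] f with hF
    have hFB : BM F := bm_iter h hf n
    have e1 : ∫ y, (ψ (y - (α : UnitAddCircle) - (α : UnitAddCircle)) * (1 - p y)) * F y ∂ν =
        ∫ y, p y * (ψ (y - (α : UnitAddCircle)) * F (y + (α : UnitAddCircle))) ∂ν := by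
      rw [balance_real h hν ((hψB.shift' _).mul (hFB.shift _))]
      congr 1; ext y
      simp only [sub_add_cancel]
      ring
    have e2 : ∫ y, (ψ y * p y * (p (y + (α : UnitAddCircle)) /
        (1 - p (y + (α : UnitAddCircle))))) * F y ∂ν =
        ∫ y, p y * (ψ (y - (α : UnitAddCircle)) * F (y - (α : UnitAddCircle))) ∂ν := by
      have hb := balance_real h hν (Φ := fun y => (p (y + (α : UnitAddCircle)) /
        (1 - p (y + (α : UnitAddCircle)))) * (ψ y * F y)) ((hr.shift _).mul (hψB.mul hFB))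
      have e3 : ∀ y, (ψ y * p y * (p (y + (α : UnitAddCircle)) /
        (1 - p (y + (α : UnitAddCircle))))) * F y = p y * ((p (y + (α : UnitAddCircle)) /
        (1 - p (y + (α : UnitAddCircle)))) * (ψ y * F y)) := by
        intro y; ring
      simp_rw [e3]
      rw [hb]
      congr 1; ext y
      simp only [sub_add_cancel]
      have := (sub_pos.2 (h.lt y)).ne'
      field_simp
    rw [e1, e2, ← integral_sub]
    · congr 1; ext y; ring
    · exact (hpB.mul ((hψB.shift' _).mul (hFB.shift _))).integrable ν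
    · exact (hpB.mul ((hψB.shift' _).mul (hFB.shift' _))).integrable ν
  simp_rw [key]
  have hb := (energy h hν hf).const_mul C
  rw [mul_zero] at hb
  apply squeeze_zero_norm _ hb
  intro n
  have hFB : BM ((opP α p)^[n] f) := bm_iter h hf n
  refine (norm_integral_le_integral_norm _).trans ?_
  rw [← integral_const_mul]
  apply integral_mono
  · exact (BM.abs ((hpB.mul (hψB.shift' _)).mul ((hFB.shift _).sub (hFB.shift' _)))).integrable ν
  · exact ((bm_const C).mul (BM.abs ((hFB.shift _).sub (hFB.shift' _)))).integrable ν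
  · intro y
    simp only
    rw [norm_mul, Real.norm_eq_abs, Real.norm_eq_abs]
    apply mul_le_mul_of_nonneg_right _ (abs_nonneg _)
    rw [abs_mul]
    have h1 : |p y| ≤ 1 := by rw [abs_of_pos (h.pos y)]; exact (h.lt y).le
    calc |p y| * |ψ (y - (α : UnitAddCircle))| ≤ 1 * C :=
          mul_le_mul h1 (hC _) (abs_nonneg _) (by norm_num)
      _ = C := one_mul _

end H61.QP
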