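import Pool.Agent.T6.H61.QP.MixW

open MeasureTheory Set Metric Filter
open scoped ENNReal NNReal Topology

namespace H61.QP

variable {α : ℝ} {p : UnitAddCircle → ℝ}

theorem lipschitz_BS2 {G : UnitAddCircle → ℝ} {L : ℝ≥0} (hL : LipschitzWith L G) :
    LipschitzWith (L + L) (BS α G 2) := by
  apply LipschitzWith.of_dist_le_mul
  intro x y
  unfold BS
  rw [Finset.sum_range_succ, Finset.sum_range_one, Finset.sum_range_succ, Finset.sum_range_one,
    NNReal.coe_add, add_mul]
  refine (dist_add_add_le _ _ _ _).trans (add_le_add ?_ ?_)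
  · refine (hL.dist_le_mul _ _).trans ?_
    rw [dist_add_right]
  · refine (hL.dist_le_mul _ _).trans ?_
    rw [dist_add_right]

theorem withDensity_prob {ν : Measure UnitAddCircle} [IsProbabilityMeasure ν]
    {f : UnitAddCircle → ℝ} (hf : BM f) (h0 : ∀ y, 0 ≤ f y) (h1 : ∫ y, f y ∂ν = 1) :
    IsProbabilityMeasure (ν.withDensity (fun y => ENNReal.ofReal (f y))) := by
  constructor
  rw [withDensity_apply _ MeasurableSet.univ, Measure.restrict_univ,
    ← ofReal_integral_eq_lintegral_ofReal (hf.integrable ν) (Eventually.of_forall h0), h1]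
  simp

/-- Limits are conformal for the square of the rotation. -/
theorem conf_of_limit (h : Env α p) {μ : Measure UnitAddCircle} (hμ : IsProbabilityMeasure μ)
    (hI : ∀ ψ : UnitAddCircle → ℝ, Continuous ψ →
      ∫ y, (ψ (y - (α : UnitAddCircle) - (α : UnitAddCircle)) * (1 - p y)) ∂μ =
      ∫ y, (ψ y * p y * (p (y + (α : UnitAddCircle)) / (1 - p (y + (α : UnitAddCircle))))) ∂μ) :
    Conf (((2 : ℕ) : ℝ) * α) (BS α (fun y => Real.log (p y) - Real.log (1 - p y)) 2)
      (μ.withDensity (fun y => ENNReal.ofReal (1 - p y))) := by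
  have hpc := h.cont
  have hpm : Measurable p := hpc.measurable
  set r : UnitAddCircle → ℝ := fun y => p y * (p (y + (α : UnitAddCircle)) /
    (1 - p (y + (α : UnitAddCircle)))) with hr
  have hrc : Continuous r := by
    apply Continuous.mul hpc
    apply Continuous.div (by fun_prop) (by fun_prop)
    intro y
    exact (sub_pos.2 (h.lt _)).ne'
  have hr0 : ∀ y, 0 ≤ r y := fun y => mul_nonneg (h.pos y).le
    (div_nonneg (h.pos _).le (sub_pos.2 (h.lt _)).le)
  have hrm : Measurable r := hrc.measurable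
  have h2 : ∀ y : UnitAddCircle, y - (((((2 : ℕ) : ℝ) * α : ℝ)) : UnitAddCircle) =
      y - (α : UnitAddCircle) - (α : UnitAddCircle) := by
    intro y
    have : (((2 : ℕ) : ℝ) * α : ℝ) = α + α := by push_cast; ring
    rw [this, AddCircle.coe_add]
    abel
  have hsub : Measurable (fun x : UnitAddCircle =>
      x - (((((2 : ℕ) : ℝ) * α : ℝ)) : UnitAddCircle)) := measurable_id.sub_const _
  have f1 : IsFiniteMeasure (μ.withDensity (fun y => ENNReal.ofReal (r y))) := by
    apply isFiniteMeasure_withDensity_ofReal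
    exact (integrable_cont μ hrc).2
  have f0 : IsFiniteMeasure (μ.withDensity (fun y => ENNReal.ofReal (1 - p y))) := by
    apply isFiniteMeasure_withDensity_ofReal
    exact (integrable_cont μ (by fun_prop)).2
  have heq : μ.withDensity (fun y => ENNReal.ofReal (r y)) =
      (μ.withDensity (fun y => ENNReal.ofReal (1 - p y))).map
        (fun x => x - (((((2 : ℕ) : ℝ) * α : ℝ)) : UnitAddCircle)) := by
    apply ext_of_forall_integral_eq_of_IsFiniteMeasure
    intro φ
    rw [integral_map hsub.aemeasurable (by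
      apply Continuous.aestronglyMeasurable; exact φ.continuous)]
    rw [integral_withDensity_eq_integral_toReal_smul (by fun_prop) (by simp),
      integral_withDensity_eq_integral_toReal_smul (by fun_prop) (by simp)]
    have t1 : ∀ y, (ENNReal.ofReal (r y)).toReal = r y := fun y => ENNReal.toReal_ofReal (hr0 y)
    have t2 : ∀ y, (ENNReal.ofReal (1 - p y)).toReal = 1 - p y := fun y =>
      ENNReal.toReal_ofReal (sub_pos.2 (h.lt y)).le
    simp_rw [t1, t2, smul_eq_mul, h2]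
    have := hI φ φ.continuous
    have e1 : ∀ y, (1 - p y) * φ (y - (α : UnitAddCircle) - (α : UnitAddCircle)) =
      φ (y - (α : UnitAddCircle) - (α : UnitAddCircle)) * (1 - p y) := fun y => mul_comm _ _
    simp_rw [e1]
    rw [this]
    congr 1; ext y; simp only [hr]; ring
  intro f hf
  have a1 : ∫⁻ x, f (x - (((((2 : ℕ) : ℝ) * α : ℝ)) : UnitAddCircle))
      ∂(μ.withDensity (fun y => ENNReal.ofReal (1 - p y))) =
      ∫⁻ x, f x ∂(μ.withDensity (fun y => ENNReal.ofReal (r y))) := by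
    rw [heq, lintegral_map hf hsub]
  rw [a1, lintegral_withDensity_eq_lintegral_mul _ (by fun_prop) hf]
  have hBm : Measurable (BS α (fun y => Real.log (p y) - Real.log (1 - p y)) 2) := by
    unfold BS; fun_prop
  rw [lintegral_withDensity_eq_lintegral_mul _ (by fun_prop) (by fun_prop)]
  congr 1; ext y
  simp only [Pi.mul_apply]
  have e2 : r y = (1 - p y) * Real.exp (BS α (fun y => Real.log (p y) - Real.log (1 - p y)) 2 y) := by
    unfold BS
    rw [Finset.sum_range_succ, Finset.sum_range_one]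
    simp only [Nat.cast_zero, zero_mul, AddCircle.coe_zero, add_zero, Nat.cast_one, one_mul]
    rw [Real.exp_add, Real.exp_sub, Real.exp_sub, Real.exp_log (h.pos y),
      Real.exp_log (sub_pos.2 (h.lt y)), Real.exp_log (h.pos _), Real.exp_log (sub_pos.2 (h.lt _))]
    simp only [hr]
    have := (sub_pos.2 (h.lt y)).ne'
    field_simp
  rw [e2, ENNReal.ofReal_mul (sub_pos.2 (h.lt y)).le]
  ring

theorem weak_limit (h : Env α p) {ν : Measure UnitAddCircle} (hν : Stationary α p ν)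
    {H : UnitAddCircle → ℝ} (hH : Measurable H) (hb : ∀ y, 1 ≤ H y ∧ H y ≤ 2)
    (φ : UnitAddCircle → ℝ) (hφ : Continuous φ) :
    Tendsto (fun n : ℕ => ∫ y, φ y * (opP α p)^[n] H y ∂ν) atTop
      (𝓝 ((∫ y, φ y ∂ν) * ∫ y, H y ∂ν)) := by
  have hprob := hν.1
  have hpc := h.cont
  have hpm : Measurable p := hpc.measurable
  have hHB : BM H := ⟨hH, 2, fun y => by
    rw [abs_of_nonneg (by linarith [(hb y).1])]; exact (hb y).2⟩
  set F : ℕ → UnitAddCircle → ℝ := fun n => (opP α p)^[n] H with hF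
  have hFB : ∀ n, BM (F n) := bm_iter h hHB
  have hFb : ∀ n y, 1 ≤ F n y ∧ F n y ≤ 2 := fun n => iter_bounds h hb n
  set Z := ∫ y, H y ∂ν with hZ
  have hZF : ∀ n, ∫ y, F n y ∂ν = Z := fun n => iter_integral h hν hHB n
  have hZ1 : 1 ≤ Z := by
    calc (1 : ℝ) = ∫ y, (1 : ℝ) ∂ν := by simp
      _ ≤ Z := integral_mono (integrable_const _) (hHB.integrable ν) (fun y => (hb y).1)
  have hZ0 : Z ≠ 0 := by linarith
  have hwB : ∀ n, BM (fun y => F n y * Z⁻¹) := fun n => (hFB n).mul (bm_const _)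
  have hw0 : ∀ n y, 0 ≤ F n y * Z⁻¹ := fun n y => mul_nonneg (by linarith [(hFb n y).1])
    (by positivity)
  have hw1 : ∀ n, ∫ y, F n y * Z⁻¹ ∂ν = 1 := by
    intro n
    rw [integral_mul_const, hZF n]
    exact mul_inv_cancel₀ hZ0
  let M : ℕ → ProbabilityMeasure UnitAddCircle := fun n =>
    ⟨ν.withDensity (fun y => ENNReal.ofReal (F n y * Z⁻¹)), withDensity_prob (hwB n) (hw0 n) (hw1 n)⟩
  have hM : ∀ n (g : UnitAddCircle → ℝ), ∫ y, g y ∂(M n : Measure UnitAddCircle) =
      Z⁻¹ * ∫ y, g y * F n y ∂ν := by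
    intro n g
    simp only [M, ProbabilityMeasure.coe_mk]
    rw [integral_withDensity_eq_integral_toReal_smul _ (by simp)]
    · rw [← integral_const_mul]
      congr 1; ext y
      rw [ENNReal.toReal_ofReal (hw0 n y), smul_eq_mul]
      ring
    · exact ENNReal.measurable_ofReal.comp (hwB n).1
  rw [tendsto_iff_ultrafilter]
  intro U hU
  obtain ⟨μ, -, hμ⟩ := (isCompact_univ (X := ProbabilityMeasure UnitAddCircle)).ultrafilter_le_nhds
    (U.map M) (by simp)
  have hμ' : Tendsto M (U : Filter ℕ) (𝓝 μ) := hμ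
  rw [ProbabilityMeasure.tendsto_iff_forall_integral_tendsto] at hμ'
  have hlim : ∀ g : UnitAddCircle → ℝ, Continuous g →
      Tendsto (fun n => Z⁻¹ * ∫ y, g y * F n y ∂ν) (U : Filter ℕ)
        (𝓝 (∫ y, g y ∂(μ : Measure UnitAddCircle))) := by
    intro g hg
    have := hμ' (BoundedContinuousFunction.mkOfCompact ⟨g, hg⟩)
    simp only [BoundedContinuousFunction.mkOfCompact_apply, ContinuousMap.coe_mk] at this
    simp_rw [hM] at this
    exact this
  have hI : ∀ ψ : UnitAddCircle → ℝ, Continuous ψ →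
      ∫ y, (ψ (y - (α : UnitAddCircle) - (α : UnitAddCircle)) * (1 - p y))
        ∂(μ : Measure UnitAddCircle) =
      ∫ y, (ψ y * p y * (p (y + (α : UnitAddCircle)) / (1 - p (y + (α : UnitAddCircle)))))
        ∂(μ : Measure UnitAddCircle) := by
    intro ψ hψ
    have c1 : Continuous fun y => ψ (y - (α : UnitAddCircle) - (α : UnitAddCircle)) * (1 - p y) := by
      fun_prop
    have c2 : Continuous fun y => (ψ y * p y * (p (y + (α : UnitAddCircle)) /
        (1 - p (y + (α : UnitAddCircle))))) := by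
      apply Continuous.mul (by fun_prop)
      apply Continuous.div (by fun_prop) (by fun_prop)
      intro y
      exact (sub_pos.2 (h.lt _)).ne'
    have l1 := hlim _ c1
    have l2 := hlim _ c2
    have l3 := l1.sub l2
    have l4 := (((approx_conf h hν hHB hψ).const_mul Z⁻¹).mono_left hU)
    rw [mul_zero] at l4
    have l5 := tendsto_nhds_unique l3 (l4.congr (fun n => by rw [mul_sub]))
    linarith
  have hmu : (μ : Measure UnitAddCircle) = ν := by
    obtain ⟨L, hL⟩ := exists_lipschitz_G h.smooth h.pos h.lt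
    have hirr : Irrational (((2 : ℕ) : ℝ) * α) := h.irr.natCast_mul two_ne_zero
    have i1 : IsProbabilityMeasure (μ : Measure UnitAddCircle) := μ.2
    refine unique_of_conf hirr (lipschitz_BS2 hL) hpc h.lt _ _ (conf_of_limit h i1 hI) ?_
    exact (conf_of_stationary h.irr hpc h.pos h.lt h.sym hν).iter hL.continuous 2
  have h1 := (hlim φ hφ).const_mul Z
  rw [hmu] at h1
  have e : ∀ n, Z * (Z⁻¹ * ∫ y, φ y * F n y ∂ν) = ∫ y, φ y * F n y ∂ν := by
    intro n
    rw [← mul_assoc, mul_inv_cancel₀ hZ0, one_mul]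
  simp_rw [e] at h1
  rw [mul_comm Z] at h1
  exact h1

theorem iter_one_add (h : Env α p) (f : UnitAddCircle → ℝ) (n : ℕ) :
    (opP α p)^[n] (fun y => 1 + f y) = fun y => 1 + (opP α p)^[n] f y := by
  induction n with
  | zero => rfl
  | succ n ih =>
    rw [Function.iterate_succ_apply', Function.iterate_succ_apply', ih]
    ext y
    simp only [opP]
    ring

theorem weak_limit01 (h : Env α p) {ν : Measure UnitAddCircle} (hν : Stationary α p ν)
    {f : UnitAddCircle → ℝ} (hf : Measurable f) (hb : ∀ y, 0 ≤ f y ∧ f y ≤ 1)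
    (φ : UnitAddCircle → ℝ) (hφ : Continuous φ) :
    Tendsto (fun n : ℕ => ∫ y, φ y * (opP α p)^[n] f y ∂ν) atTop
      (𝓝 ((∫ y, φ y ∂ν) * ∫ y, f y ∂ν)) := by
  have hprob := hν.1
  have hfB : BM f := ⟨hf, 1, fun y => by rw [abs_of_nonneg (hb y).1]; exact (hb y).2⟩
  have h1 := weak_limit h hν (H := fun y => 1 + f y) (by fun_prop)
    (fun y => ⟨by linarith [(hb y).1], by linarith [(hb y).2]⟩) φ hφ
  have e1 : ∫ y, (1 + f y) ∂ν = 1 + ∫ y, f y ∂ν := by
    rw [integral_add (integrable_const _) (hfB.integrable ν)]; simp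
  have e2 : ∀ n, ∫ y, φ y * (opP α p)^[n] (fun y => 1 + f y) y ∂ν = ∫ y, φ y ∂ν +
      ∫ y, φ y * (opP α p)^[n] f y ∂ν := by
    intro n
    rw [iter_one_add h, ← integral_add (integrable_cont ν hφ)
      (((bm_cont hφ).mul (bm_iter h hfB n)).integrable ν)]
    congr 1; ext y; ring
  rw [e1] at h1
  simp_rw [e2] at h1
  have h2 := h1.sub_const (∫ y, φ y ∂ν)
  have e3 : (∫ y, φ y ∂ν) * (1 + ∫ y, f y ∂ν) - ∫ y, φ y ∂ν = (∫ y, φ y ∂ν) * ∫ y, f y ∂ν := by
    ring
  rw [e3] at h2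
  refine h2.congr ?_
  intro n
  ring

theorem weak_limitL1 (h : Env α p) {ν : Measure UnitAddCircle} (hν : Stationary α p ν)
    {f : UnitAddCircle → ℝ} (hf : Measurable f) (hb : ∀ y, 0 ≤ f y ∧ f y ≤ 1)
    (a : UnitAddCircle → ℝ) (ha : Integrable a ν) :
    Tendsto (fun n : ℕ => ∫ y, a y * (opP α p)^[n] f y ∂ν) atTop
      (𝓝 ((∫ y, a y ∂ν) * ∫ y, f y ∂ν)) := by
  have hprob := hν.1
  have hfB : BM f := ⟨hf, 1, fun y => by rw [abs_of_nonneg (hb y).1]; exact (hb y).2⟩
  have hint : 0 ≤ ∫ y, f y ∂ν ∧ ∫ y, f y ∂ν ≤ 1 := by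
    constructor
    · exact integral_nonneg (fun y => (hb y).1)
    · calc ∫ y, f y ∂ν ≤ ∫ y, (1 : ℝ) ∂ν :=
            integral_mono (hfB.integrable ν) (integrable_const _) (fun y => (hb y).2)
        _ = 1 := by simp
  rw [Metric.tendsto_atTop]
  intro ε hε
  obtain ⟨g, hg, hgi⟩ := ha.exists_boundedContinuous_integral_sub_le (show 0 < ε / 4 by linarith)
  have h1 := weak_limit01 h hν hf hb g g.continuous
  rw [Metric.tendsto_atTop] at h1
  obtain ⟨N, hN⟩ := h1 (ε / 4) (by linarith)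
  refine ⟨N, fun n hn => ?_⟩
  have h2 := hN n hn
  rw [Real.dist_eq] at h2 ⊢
  have hFb := iter_bounds h hb n
  have hFB : BM ((opP α p)^[n] f) := bm_iter h hfB n
  have i1 : Integrable (fun y => a y * (opP α p)^[n] f y) ν := by
    refine ha.mul_bdd (c := 1) hFB.1.aestronglyMeasurable (Eventually.of_forall fun y => ?_)
    rw [Real.norm_eq_abs, abs_of_nonneg (hFb y).1]; exact (hFb y).2
  have i2 : Integrable (fun y => g y * (opP α p)^[n] f y) ν := by
    refine hgi.mul_bdd (c := 1) hFB.1.aestronglyMeasurable (Eventually.of_forall fun y => ?_)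
    rw [Real.norm_eq_abs, abs_of_nonneg (hFb y).1]; exact (hFb y).2
  have b1 : |∫ y, a y * (opP α p)^[n] f y ∂ν - ∫ y, g y * (opP α p)^[n] f y ∂ν| ≤ ε / 4 := by
    rw [← integral_sub i1 i2, ← Real.norm_eq_abs]
    refine (norm_integral_le_integral_norm _).trans (le_trans ?_ hg)
    apply integral_mono (i1.sub i2).norm (ha.sub hgi).norm
    intro y
    simp only [Pi.sub_apply]
    rw [← sub_mul, norm_mul]
    have : ‖(opP α p)^[n] f y‖ ≤ 1 := by
      rw [Real.norm_eq_abs, abs_of_nonneg (hFb y).1]; exact (hFb y).2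
    calc ‖a y - g y‖ * ‖(opP α p)^[n] f y‖ ≤ ‖a y - g y‖ * 1 :=
          mul_le_mul_of_nonneg_left this (norm_nonneg _)
      _ = ‖a y - g y‖ := mul_one _
  have b2 : |∫ y, g y ∂ν - ∫ y, a y ∂ν| ≤ ε / 4 := by
    rw [abs_sub_comm, ← integral_sub ha hgi, ← Real.norm_eq_abs]
    exact (norm_integral_le_integral_norm _).trans hg
  have b3 : |(∫ y, g y ∂ν) * ∫ y, f y ∂ν - (∫ y, a y ∂ν) * ∫ y, f y ∂ν| ≤ ε / 4 := by
    rw [← sub_mul, abs_mul, abs_of_nonneg hint.1]
    calc |∫ y, g y ∂ν - ∫ y, a y ∂ν| * ∫ y, f y ∂ν ≤ (ε / 4) * 1 :=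
          mul_le_mul b2 hint.2 hint.1 (by linarith)
      _ = ε / 4 := mul_one _
  have tri : |∫ y, a y * (opP α p)^[n] f y ∂ν - (∫ y, a y ∂ν) * ∫ y, f y ∂ν| ≤
      |∫ y, a y * (opP α p)^[n] f y ∂ν - ∫ y, g y * (opP α p)^[n] f y ∂ν| +
      |∫ y, g y * (opP α p)^[n] f y ∂ν - (∫ y, g y ∂ν) * ∫ y, f y ∂ν| +
      |(∫ y, g y ∂ν) * ∫ y, f y ∂ν - (∫ y, a y ∂ν) * ∫ y, f y ∂ν| := by
    have t1 := abs_sub_le (∫ y, a y * (opP α p)^[n] f y ∂ν) (∫ y, g y * (opP α p)^[n] f y ∂ν)
      ((∫ y, a y ∂ν) * ∫ y, f y ∂ν)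
    have t2 := abs_sub_le (∫ y, g y * (opP α p)^[n] f y ∂ν) ((∫ y, g y ∂ν) * ∫ y, f y ∂ν)
      ((∫ y, a y ∂ν) * ∫ y, f y ∂ν)
    linarith
  linarith

theorem rn_help {X : Type*} [MeasurableSpace X] {μ ν : Measure X} [IsFiniteMeasure μ]
    [IsFiniteMeasure ν] (hac : μ ≪ ν) (g : X → ℝ) :
    ∫ y, (μ.rnDeriv ν y).toReal * g y ∂ν = ∫ y, g y ∂μ := by
  have := integral_rnDeriv_smul (f := g) hac
  simpa [smul_eq_mul] using this

theorem rn_help2 {X : Type*} [MeasurableSpace X] {μ ν : Measure X} [IsFiniteMeasure μ]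
    [IsFiniteMeasure ν] (hac : μ ≪ ν) :
    ∫ y, (μ.rnDeriv ν y).toReal ∂ν = μ.real univ := by
  have := rn_help hac (fun _ => 1)
  simpa using this

/-- the version for measures dominated by `ν` -/
theorem weak_limit_meas (h : Env α p) {ν : Measure UnitAddCircle} (hν : Stationary α p ν)
    {f : UnitAddCircle → ℝ} (hf : Measurable f) (hb : ∀ y, 0 ≤ f y ∧ f y ≤ 1)
    {μ : Measure UnitAddCircle} (hμ : μ ≤ ν) :
    Tendsto (fun n : ℕ => ∫ y, (opP α p)^[n] f y ∂μ) atTop
      (𝓝 (μ.real univ * ∫ y, f y ∂ν)) := by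
  have hprob := hν.1
  have hac : μ ≪ ν := Measure.absolutelyContinuous_of_le hμ
  have hfin : IsFiniteMeasure μ := ⟨(hμ univ).trans_lt (measure_lt_top ν univ)⟩
  have h1 := weak_limitL1 h hν hf hb (fun y => (μ.rnDeriv ν y).toReal)
    Measure.integrable_toReal_rnDeriv
  have e1 : ∀ g : UnitAddCircle → ℝ, ∫ y, (μ.rnDeriv ν y).toReal * g y ∂ν = ∫ y, g y ∂μ := by
    intro g
    exact rn_help hac g
  simp_rw [e1] at h1
  have e2 : ∫ y, (μ.rnDeriv ν y).toReal ∂ν = μ.real univ := rn_help2 hac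
  rw [e2] at h1
  exact h1

end H61.QP
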