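import Pool.Agent.T6.H61.QP.Uniq

open MeasureTheory Set Metric Filter
open scoped ENNReal NNReal Topology

namespace H61.QP

/-- The transition operator of the quasi-periodic walk seen from the particle:
`P φ (y) = p(y) φ(y + α) + (1 - p(y)) φ(y - α)`. -/
noncomputable def opP (α : ℝ) (p φ : UnitAddCircle → ℝ) (y : UnitAddCircle) : ℝ :=
  p y * φ (y + (α : UnitAddCircle)) + (1 - p y) * φ (y - (α : UnitAddCircle))

/-- A Borel probability measure `ν` is stationary: `∫ P φ dν = ∫ φ dν` for every continuous `φ`. -/
def Stationary (α : ℝ) (p : UnitAddCircle → ℝ) (ν : Measure UnitAddCircle) : Prop :=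
  IsProbabilityMeasure ν ∧ ∀ φ : C(UnitAddCircle, ℝ), ∫ y, opP α p φ y ∂ν = ∫ y, φ y ∂ν

theorem integrable_cont {X : Type*} [TopologicalSpace X] [CompactSpace X] [MeasurableSpace X]
    [OpensMeasurableSpace X] (μ : Measure X) [IsFiniteMeasure μ] {f : X → ℝ}
    (hf : Continuous f) : Integrable f μ :=
  hf.integrable_of_hasCompactSupport (HasCompactSupport.of_compactSpace f)

theorem vol_real : (volume : Measure UnitAddCircle).real univ = 1 := by
  rw [Measure.real, UnitAddCircle.measure_univ]; rfl

instance : IsProbabilityMeasure (volume : Measure UnitAddCircle) := ⟨UnitAddCircle.measure_univ⟩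

theorem flux {α : ℝ} (hα : Irrational α) {p : UnitAddCircle → ℝ} (hp : Continuous p)
    {ν : Measure UnitAddCircle} (hν : Stationary α p ν) (φ : UnitAddCircle → ℝ)
    (hφ : Continuous φ) :
    ∫ y, p y * φ y ∂ν = ∫ y, (1 - p y) * φ (y - (α : UnitAddCircle)) ∂ν +
      (∫ y, p y ∂ν - ∫ y, (1 - p y) ∂ν) * ∫ y, φ y := by
  obtain ⟨hprob, hst⟩ := hν
  let F : UnitAddCircle → ℝ := fun t => ∫ y, (p y * φ (y + t) -
    (1 - p y) * φ (y - (α : UnitAddCircle) + t)) ∂ν
  have hF : ∀ t, F t = ∫ y, p y * φ (y + t) ∂ν -
      ∫ y, (1 - p y) * φ (y - (α : UnitAddCircle) + t) ∂ν := by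
    intro t
    apply integral_sub
    · exact integrable_cont ν (by fun_prop)
    · exact integrable_cont ν (by fun_prop)
  have hshift : ∀ t, F (t + (α : UnitAddCircle)) = F t := by
    intro t
    have h1 := hst ⟨fun y => φ (y + t), by fun_prop⟩
    simp only [opP, ContinuousMap.coe_mk] at h1
    have h2 : ∫ y, φ (y + t) ∂ν = ∫ y, p y * φ (y + t) ∂ν + ∫ y, (1 - p y) * φ (y + t) ∂ν := by
      rw [← integral_add (integrable_cont ν (by fun_prop)) (integrable_cont ν (by fun_prop))]
      congr 1; ext y; ring
    have h3 : ∫ y, (p y * φ (y + (α : UnitAddCircle) + t) +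
        (1 - p y) * φ (y - (α : UnitAddCircle) + t)) ∂ν =
        ∫ y, p y * φ (y + (α : UnitAddCircle) + t) ∂ν +
        ∫ y, (1 - p y) * φ (y - (α : UnitAddCircle) + t) ∂ν :=
      integral_add (integrable_cont ν (by fun_prop)) (integrable_cont ν (by fun_prop))
    rw [h2, h3] at h1
    rw [hF, hF]
    have e1 : ∀ y : UnitAddCircle, y + (t + (α : UnitAddCircle)) = y + (α : UnitAddCircle) + t := by
      intro y; abel
    have e2 : ∀ y : UnitAddCircle, y - (α : UnitAddCircle) + (t + (α : UnitAddCircle)) = y + t := by
      intro y; abel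
    simp_rw [e2, e1]
    linarith
  have hcont : Continuous F := by
    have := continuous_parametric_integral_of_continuous (μ := ν)
      (f := fun (t y : UnitAddCircle) => p y * φ (y + t) -
        (1 - p y) * φ (y - (α : UnitAddCircle) + t)) (by
        simp only [Function.uncurry_def]
        fun_prop) (isCompact_univ)
    simpa [Measure.restrict_univ] using this
  have hmul : ∀ n : ℤ, F (n • (α : UnitAddCircle)) = F 0 := by
    intro n
    induction n with
    | zero => rw [zero_smul]
    | succ n ih => rw [add_smul, one_smul, hshift, ih]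
    | pred n ih =>
      have := hshift ((-(n : ℤ) - 1) • (α : UnitAddCircle))
      rw [← this, sub_smul, one_smul, sub_add_cancel, ih]
  have hdense : DenseRange (fun n : ℤ => n • (α : UnitAddCircle)) := by
    have := (AddCircle.denseRange_zsmul_coe_iff (a := α) (p := 1)).2 (by simpa using hα)
    exact this
  have hconst : ∀ t, F t = F 0 := by
    have : F = fun _ => F 0 := by
      apply Continuous.ext_on hdense hcont continuous_const
      rintro _ ⟨n, rfl⟩
      exact hmul n
    intro t
    exact congrFun this t
  -- average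
  have havg : ∫ t, F t = F 0 := by
    simp_rw [hconst]
    rw [integral_const, vol_real, one_smul]
  have e3 : ∫ t : UnitAddCircle, ∫ y, p y * φ (y + t) ∂ν = (∫ y, p y ∂ν) * ∫ y, φ y := by
    rw [integral_integral_swap]
    · have : ∀ y : UnitAddCircle, ∫ t : UnitAddCircle, p y * φ (y + t) = p y * ∫ y, φ y := by
        intro y
        rw [integral_const_mul, integral_add_left_eq_self]
      simp_rw [this]
      rw [integral_mul_const]
    · apply integrable_cont
      simp only [Function.uncurry_def]
      fun_prop
  have e4 : ∫ t : UnitAddCircle, ∫ y, (1 - p y) * φ (y - (α : UnitAddCircle) + t) ∂ν =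
      (∫ y, (1 - p y) ∂ν) * ∫ y, φ y := by
    rw [integral_integral_swap]
    · have : ∀ y : UnitAddCircle, ∫ t : UnitAddCircle,
          (1 - p y) * φ (y - (α : UnitAddCircle) + t) = (1 - p y) * ∫ y, φ y := by
        intro y
        rw [integral_const_mul, integral_add_left_eq_self]
      simp_rw [this]
      rw [integral_mul_const]
    · apply integrable_cont
      simp only [Function.uncurry_def]
      fun_prop
  have c1 : Continuous fun t : UnitAddCircle => ∫ y, p y * φ (y + t) ∂ν := by
    have := continuous_parametric_integral_of_continuous (μ := ν)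
      (f := fun (t y : UnitAddCircle) => p y * φ (y + t)) (by
        simp only [Function.uncurry_def]
        fun_prop) (isCompact_univ)
    simpa [Measure.restrict_univ] using this
  have c2 : Continuous fun t : UnitAddCircle =>
      ∫ y, (1 - p y) * φ (y - (α : UnitAddCircle) + t) ∂ν := by
    have := continuous_parametric_integral_of_continuous (μ := ν)
      (f := fun (t y : UnitAddCircle) => (1 - p y) * φ (y - (α : UnitAddCircle) + t)) (by
        simp only [Function.uncurry_def]
        fun_prop) (isCompact_univ)
    simpa [Measure.restrict_univ] using this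
  have e5 : ∫ t, F t = (∫ y, p y ∂ν) * (∫ y, φ y) - (∫ y, (1 - p y) ∂ν) * ∫ y, φ y := by
    simp_rw [hF]
    rw [integral_sub (integrable_cont _ c1) (integrable_cont _ c2), e3, e4]
  have e6 := hF 0
  simp only [add_zero] at e6
  rw [← havg, e5] at e6
  linarith

theorem one_le_integral_exp {u : UnitAddCircle → ℝ} (hu : Continuous u) (h0 : ∫ x, u x = 0) :
    1 ≤ ∫ x, Real.exp (u x) := by
  calc (1 : ℝ) = ∫ x : UnitAddCircle, (u x + 1) := by
        rw [integral_add (integrable_cont _ hu) (integrable_const _), h0]
        simp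
    _ ≤ _ := by
        apply integral_mono
        · exact integrable_cont _ (by fun_prop)
        · exact integrable_cont _ (by fun_prop)
        · intro x
          exact Real.add_one_le_exp (u x)

theorem integral_BS {β : ℝ} {G : UnitAddCircle → ℝ} (hG : Continuous G) (h0 : ∫ x, G x = 0)
    (n : ℕ) : ∫ x, BS β G n x = 0 := by
  unfold BS
  rw [integral_finsetSum]
  · apply Finset.sum_eq_zero
    intro i _
    rw [integral_add_right_eq_self, h0]
  · intro i _
    exact integrable_cont _ (by fun_prop)

/-- zero flux -/
theorem flux_zero {α : ℝ} (hα : Irrational α) {p : UnitAddCircle → ℝ} (hp : Continuous p)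
    (hp0 : ∀ y, 0 < p y) (hp1 : ∀ y, p y < 1)
    (hsym : ∫ y, Real.log (p y) = ∫ y, Real.log (1 - p y))
    {ν : Measure UnitAddCircle} (hν : Stationary α p ν) :
    ∫ y, p y ∂ν - ∫ y, (1 - p y) ∂ν = 0 := by
  set c := ∫ y, p y ∂ν - ∫ y, (1 - p y) ∂ν with hc
  have hprob := hν.1
  have hfl : ∀ φ : UnitAddCircle → ℝ, Continuous φ →
    ∫ y, p y * φ y ∂ν = ∫ y, (1 - p y) * φ (y - (α : UnitAddCircle)) ∂ν + c * ∫ y, φ y :=
    fun φ hφ => flux hα hp hν φ hφ
  set G : UnitAddCircle → ℝ := fun y => Real.log (p y) - Real.log (1 - p y) with hGdef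
  have hGc : Continuous G := by
    apply Continuous.sub
    · exact hp.log (fun y => (hp0 y).ne')
    · exact (continuous_const.sub hp).log (fun y => (sub_pos.2 (hp1 y)).ne')
  have hG0 : ∫ y, G y = 0 := by
    rw [hGdef, integral_sub, hsym, sub_self]
    · exact integrable_cont _ (hp.log (fun y => (hp0 y).ne'))
    · exact integrable_cont _ ((continuous_const.sub hp).log (fun y => (sub_pos.2 (hp1 y)).ne'))
  have hexpG : ∀ y, (1 - p y) * Real.exp (G y) = p y := by
    intro y
    rw [hGdef]
    simp only
    rw [Real.exp_sub, Real.exp_log (hp0 y), Real.exp_log (sub_pos.2 (hp1 y))]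
    field_simp [(sub_pos.2 (hp1 y)).ne']
  rcases lt_trichotomy c 0 with hneg | hz | hpos
  · exfalso
    let χ : ℕ → UnitAddCircle → ℝ := fun k x => Real.exp (BS α G k x)
    have hχc : ∀ k, Continuous (χ k) := fun k => Real.continuous_exp.comp (continuous_BS hGc k)
    have hstep : ∀ k, ∫ y, (1 - p y) * χ (k + 1) y ∂ν = ∫ y, (1 - p y) * χ k y ∂ν +
        c * ∫ y, χ k y := by
      intro k
      have h1 := hfl (fun x => χ k (x + (α : UnitAddCircle))) ((hχc k).comp (by fun_prop))
      simp only [sub_add_cancel] at h1
      rw [integral_add_right_eq_self (χ k) (α : UnitAddCircle)] at h1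
      rw [← h1]
      have e1 : ∀ y, (1 - p y) * χ (k + 1) y = p y * χ k (y + (α : UnitAddCircle)) := by
        intro y
        have e2 : χ (k + 1) y = Real.exp (G y) * χ k (y + (α : UnitAddCircle)) := by
          simp only [χ]
          rw [← Real.exp_add]
          congr 1
          unfold BS
          rw [Finset.sum_range_succ']
          simp only [Nat.cast_zero, zero_mul, AddCircle.coe_zero, add_zero]
          rw [add_comm]
          congr 1
          apply Finset.sum_congr rfl
          intro j _
          congr 1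
          have : (((j + 1 : ℕ) : ℝ) * α : ℝ) = α + (j : ℝ) * α := by push_cast; ring
          rw [this, AddCircle.coe_add]
          abel
        rw [e2, ← mul_assoc, hexpG]
      congr 1
      ext y
      rw [e1]
    have hle : ∀ k : ℕ, ∫ y, (1 - p y) * χ k y ∂ν ≤ ∫ y, (1 - p y) * χ 0 y ∂ν + c * k := by
      intro k
      induction k with
      | zero => simp
      | succ k ih =>
        rw [hstep]
        have h1 : 1 ≤ ∫ y, χ k y :=
          one_le_integral_exp (continuous_BS hGc k) (integral_BS hGc hG0 k)
        push_cast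
        nlinarith
    have hnn : ∀ k : ℕ, 0 ≤ ∫ y, (1 - p y) * χ k y ∂ν := by
      intro k
      apply integral_nonneg
      intro y
      exact mul_nonneg (sub_pos.2 (hp1 y)).le (Real.exp_pos _).le
    obtain ⟨k, hk⟩ := exists_nat_gt ((∫ y, (1 - p y) * χ 0 y ∂ν) / (-c))
    rw [div_lt_iff₀ (by linarith)] at hk
    have := hle k
    have := hnn k
    nlinarith
  · exact hz
  · exfalso
    let S : ℕ → UnitAddCircle → ℝ := fun k x =>
      ∑ i ∈ Finset.range k, G (x - ((((i : ℝ) + 1) * α : ℝ) : UnitAddCircle))
    have hSc : ∀ k, Continuous (S k) := by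
      intro k
      simp only [S]
      fun_prop
    have hS0 : ∀ k, ∫ x, S k x = 0 := by
      intro k
      simp only [S]
      rw [integral_finsetSum]
      · apply Finset.sum_eq_zero
        intro i _
        rw [integral_sub_right_eq_self, hG0]
      · intro i _
        exact integrable_cont _ (by fun_prop)
    let ψ : ℕ → UnitAddCircle → ℝ := fun k x => Real.exp (-S k x)
    have hψc : ∀ k, Continuous (ψ k) := fun k => Real.continuous_exp.comp (hSc k).neg
    have hstep : ∀ k, ∫ y, (1 - p y) * ψ k y ∂ν = ∫ y, (1 - p y) * ψ (k + 1) y ∂ν +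
        c * ∫ y, Real.exp (-S k y + -G y) := by
      intro k
      have h1 := hfl (fun x => Real.exp (-S k x + -G x))
        (Real.continuous_exp.comp ((hSc k).neg.add hGc.neg))
      have e1 : ∀ y, p y * Real.exp (-S k y + -G y) = (1 - p y) * ψ k y := by
        intro y
        have e0 : ψ k y = Real.exp (G y) * Real.exp (-S k y + -G y) := by
          simp only [ψ]
          rw [← Real.exp_add]
          congr 1
          ring
        rw [e0, ← mul_assoc, hexpG]
      have e2 : ∀ y : UnitAddCircle, Real.exp (-S k (y - (α : UnitAddCircle)) +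
          -G (y - (α : UnitAddCircle))) = ψ (k + 1) y := by
        intro y
        simp only [ψ, S]
        congr 1
        rw [Finset.sum_range_succ', neg_add]
        congr 2
        · apply Finset.sum_congr rfl
          intro j _
          congr 1
          have : ((((j + 1 : ℕ) : ℝ) + 1) * α : ℝ) = α + ((j : ℝ) + 1) * α := by push_cast; ring
          rw [this, AddCircle.coe_add]
          abel
        · simp
      simp_rw [e1, e2] at h1
      exact h1
    have hle : ∀ k : ℕ, ∫ y, (1 - p y) * ψ k y ∂ν + c * k ≤ ∫ y, (1 - p y) * ψ 0 y ∂ν := by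
      intro k
      induction k with
      | zero => simp
      | succ k ih =>
        have h1 : 1 ≤ ∫ y, Real.exp (-S k y + -G y) := by
          apply one_le_integral_exp ((hSc k).neg.add hGc.neg)
          have e3 : ∫ x, (-S k x + -G x) = 0 := by
            rw [integral_add (f := fun x => -S k x) (g := fun x => -G x)
              (integrable_cont _ (hSc k).neg) (integrable_cont _ hGc.neg),
              integral_neg, integral_neg, hS0, hG0]
            simp
          exact e3
        have h2 := hstep k
        push_cast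
        nlinarith
    have hnn : ∀ k : ℕ, 0 ≤ ∫ y, (1 - p y) * ψ k y ∂ν := by
      intro k
      apply integral_nonneg
      intro y
      exact mul_nonneg (sub_pos.2 (hp1 y)).le (Real.exp_pos _).le
    obtain ⟨k, hk⟩ := exists_nat_gt ((∫ y, (1 - p y) * ψ 0 y ∂ν) / c)
    rw [div_lt_iff₀ hpos] at hk
    have := hle k
    have := hnn k
    nlinarith

/-- detailed balance -/
theorem balance {α : ℝ} (hα : Irrational α) {p : UnitAddCircle → ℝ} (hp : Continuous p)
    (hp0 : ∀ y, 0 < p y) (hp1 : ∀ y, p y < 1)
    (hsym : ∫ y, Real.log (p y) = ∫ y, Real.log (1 - p y))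
    {ν : Measure UnitAddCircle} (hν : Stationary α p ν) (f : UnitAddCircle → ℝ≥0∞)
    (hf : Measurable f) :
    ∫⁻ y, ENNReal.ofReal (p y) * f y ∂ν =
      ∫⁻ y, ENNReal.ofReal (1 - p y) * f (y - (α : UnitAddCircle)) ∂ν := by
  have hprob := hν.1
  have hc := flux_zero hα hp hp0 hp1 hsym hν
  have hsub : Measurable (fun x : UnitAddCircle => x - (α : UnitAddCircle)) :=
    measurable_id.sub_const _
  have hpm : Measurable (fun y => ENNReal.ofReal (p y)) := by
    have := hp.measurable; fun_prop
  have hqm : Measurable (fun y => ENNReal.ofReal (1 - p y)) := by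
    have := hp.measurable; fun_prop
  set m₁ := ν.withDensity (fun y => ENNReal.ofReal (p y)) with hm₁
  set m₂ := (ν.withDensity (fun y => ENNReal.ofReal (1 - p y))).map
    (fun x => x - (α : UnitAddCircle)) with hm₂
  have f1 : IsFiniteMeasure m₁ := by
    rw [hm₁]
    apply isFiniteMeasure_withDensity_ofReal
    exact (integrable_cont ν hp).2
  have f0 : IsFiniteMeasure (ν.withDensity (fun y => ENNReal.ofReal (1 - p y))) := by
    apply isFiniteMeasure_withDensity_ofReal
    exact (integrable_cont ν (by fun_prop)).2
  have f2 : IsFiniteMeasure m₂ := by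
    rw [hm₂]; infer_instance
  have heq : m₁ = m₂ := by
    apply ext_of_forall_integral_eq_of_IsFiniteMeasure
    intro φ
    rw [hm₁, hm₂, integral_map hsub.aemeasurable (by
      apply Continuous.aestronglyMeasurable; exact φ.continuous)]
    rw [integral_withDensity_eq_integral_toReal_smul hpm (by simp),
      integral_withDensity_eq_integral_toReal_smul hqm (by simp)]
    have := flux hα hp hν φ φ.continuous
    rw [hc, zero_mul, add_zero] at this
    simp only [smul_eq_mul]
    have t1 : ∀ y, (ENNReal.ofReal (p y)).toReal = p y := fun y =>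
      ENNReal.toReal_ofReal (hp0 y).le
    have t2 : ∀ y, (ENNReal.ofReal (1 - p y)).toReal = 1 - p y := fun y =>
      ENNReal.toReal_ofReal (sub_pos.2 (hp1 y)).le
    simp_rw [t1, t2]
    exact this
  have a1 : ∫⁻ y, f y ∂m₁ = ∫⁻ y, ENNReal.ofReal (p y) * f y ∂ν := by
    rw [hm₁, lintegral_withDensity_eq_lintegral_mul _ hpm hf]
    rfl
  have a2 : ∫⁻ y, f y ∂m₂ = ∫⁻ y, ENNReal.ofReal (1 - p y) * f (y - (α : UnitAddCircle)) ∂ν := by
    rw [hm₂, lintegral_map hf hsub, lintegral_withDensity_eq_lintegral_mul _ hqm
      (g := fun a => f (a - (α : UnitAddCircle))) (hf.comp hsub)]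
    rfl
  rw [← a1, ← a2, heq]

end H61.QP
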