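import Pool.Agent.T6.H61.QP.Conf

open MeasureTheory Set Metric Filter
open scoped ENNReal NNReal Topology

namespace H61.QP

/-- induction for the uniqueness of conformal measures -/
theorem induct {β : ℝ} (hβ : Irrational β) {G : UnitAddCircle → ℝ} {L : ℝ≥0}
    (hL : LipschitzWith L G) (κ : ℝ≥0)
    (hκ0 : 0 < κ) (hκ1 : κ < 1)
    (hκ : 49 * ENNReal.ofReal (Real.exp (2 * L)) ^ 2 = ((κ⁻¹ : ℝ≥0) : ℝ≥0∞)) (n : ℕ) :
    ∀ (m₁ m₂ : Measure UnitAddCircle), IsProbabilityMeasure m₁ → IsProbabilityMeasure m₂ →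
    Conf β G m₁ → Conf β G m₂ → ∀ E, MeasurableSet E →
    ((1 - (1 - κ) ^ n : ℝ≥0) : ℝ≥0∞) * m₁ E ≤ m₂ E := by
  have hcmp : ∀ (m₁ m₂ : Measure UnitAddCircle), IsProbabilityMeasure m₁ →
      IsProbabilityMeasure m₂ → Conf β G m₁ → Conf β G m₂ → (κ : ℝ≥0∞) • m₁ ≤ m₂ := by
    intro m₁ m₂ i₁ i₂ h₁ h₂
    rw [Measure.le_iff]
    intro E hE
    rw [Measure.smul_apply, smul_eq_mul]
    have := compare hβ hL h₁ h₂ hE
    rw [hκ] at this
    calc (κ : ℝ≥0∞) * m₁ E ≤ κ * (((κ⁻¹ : ℝ≥0) : ℝ≥0∞) * m₂ E) := by gcongr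
      _ = m₂ E := by
        rw [← mul_assoc, ← ENNReal.coe_mul, mul_inv_cancel₀ hκ0.ne']
        simp
  induction n with
  | zero => intro m₁ m₂ i₁ i₂ h₁ h₂ E hE; simp
  | succ n ih =>
    intro m₁ m₂ i₁ i₂ h₁ h₂ E hE
    have hle := hcmp m₁ m₂ i₁ i₂ h₁ h₂
    -- the difference measure
    set c : ℝ≥0 := 1 - κ with hc
    have hc0 : c ≠ 0 := by
      rw [hc]; exact (tsub_pos_of_lt hκ1).ne'
    have hcκ : c + κ = 1 := by rw [hc]; exact tsub_add_cancel_of_le hκ1.le
    have : IsFiniteMeasure ((κ : ℝ≥0∞) • m₁) := by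
      constructor
      rw [Measure.smul_apply, measure_univ, smul_eq_mul, mul_one]
      exact ENNReal.coe_lt_top
    set m₃ : Measure UnitAddCircle := m₂ - (κ : ℝ≥0∞) • m₁ with hm₃
    have hadd : m₃ + (κ : ℝ≥0∞) • m₁ = m₂ := Measure.sub_add_cancel_of_le hle
    have : IsFiniteMeasure m₃ := by
      constructor
      have := measure_lt_top m₂ univ
      refine lt_of_le_of_lt ?_ this
      rw [← hadd, Measure.add_apply]
      exact le_self_add
    have hmass : m₃ univ = c := by
      have h := congrArg (fun m : Measure UnitAddCircle => m univ) hadd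
      simp only [Measure.add_apply, Measure.smul_apply, measure_univ, smul_eq_mul, mul_one] at h
      have : (c : ℝ≥0∞) + κ = 1 := by exact_mod_cast hcκ
      rw [← this] at h
      exact (ENNReal.add_left_inj (by simp)).1 h
    have hconf3 : Conf β G m₃ := by
      intro f hf
      have e1 := h₁ f hf
      have e2 := h₂ f hf
      -- first for bounded... use finiteness
      have key : ∀ g : UnitAddCircle → ℝ≥0∞, ∫⁻ x, g x ∂m₂ = ∫⁻ x, g x ∂m₃ + κ * ∫⁻ x, g x ∂m₁ := by
        intro g
        rw [← hadd, lintegral_add_measure, lintegral_smul_measure]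
        rfl
      -- truncation: prove for indicator functions and use measure equality
      have hsub : Measurable (fun x : UnitAddCircle => x - (β : UnitAddCircle)) :=
        measurable_id.sub_const _
      have hmeas : m₃.map (fun x => x - (β : UnitAddCircle)) =
          m₃.withDensity (fun x => ENNReal.ofReal (Real.exp (G x))) := by
        refine Measure.ext fun A hA => ?_
        rw [Measure.map_apply hsub hA, withDensity_apply _ hA]
        have a1 := h₁ (A.indicator 1) (measurable_one.indicator hA)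
        have a2 := h₂ (A.indicator 1) (measurable_one.indicator hA)
        rw [key, key, a1] at a2
        have hfin : (κ : ℝ≥0∞) * ∫⁻ x, A.indicator 1 x * ENNReal.ofReal (Real.exp (G x)) ∂m₁ ≠ ∞ := by
          rw [← a1]
          apply ENNReal.mul_ne_top ENNReal.coe_ne_top
          apply ne_top_of_le_ne_top (b := ∫⁻ x, 1 ∂m₁)
          · simp
          · apply lintegral_mono
            intro x
            simp only
            by_cases hx : x - (β : UnitAddCircle) ∈ A
            · rw [indicator_of_mem hx]; simp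
            · rw [indicator_of_notMem hx]; simp
        have a3 := (ENNReal.add_left_inj hfin).1 a2
        have b1 : ∫⁻ x, A.indicator 1 (x - (β : UnitAddCircle)) ∂m₃ =
            m₃ ((fun x => x - (β : UnitAddCircle)) ⁻¹' A) := by
          rw [← lintegral_indicator_one (hsub hA)]
          rfl
        have b2 : ∫⁻ x, A.indicator 1 x * ENNReal.ofReal (Real.exp (G x)) ∂m₃ =
            ∫⁻ x in A, ENNReal.ofReal (Real.exp (G x)) ∂m₃ := by
          rw [← lintegral_indicator hA]
          congr 1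
          ext x
          by_cases hx : x ∈ A
          · rw [indicator_of_mem hx, indicator_of_mem hx]; simp
          · rw [indicator_of_notMem hx, indicator_of_notMem hx]; simp
        rw [← b1, a3, b2]
      have hGm : Measurable (fun x => ENNReal.ofReal (Real.exp (G x))) := by
        have := hL.continuous.measurable
        fun_prop
      have t1 : ∫⁻ x, f (x - (β : UnitAddCircle)) ∂m₃ =
          ∫⁻ x, f x ∂(m₃.map (fun x => x - (β : UnitAddCircle))) := by
        rw [lintegral_map hf hsub]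
      rw [t1, hmeas, lintegral_withDensity_eq_lintegral_mul _ hGm hf]
      congr 1
      ext x
      simp [mul_comm]
    -- normalise
    have hcne : (c : ℝ≥0∞) ≠ 0 := by exact_mod_cast hc0
    set m₄ : Measure UnitAddCircle := (c : ℝ≥0∞)⁻¹ • m₃ with hm₄
    have i₄ : IsProbabilityMeasure m₄ := by
      constructor
      rw [hm₄, Measure.smul_apply, hmass, smul_eq_mul]
      exact ENNReal.inv_mul_cancel hcne ENNReal.coe_ne_top
    have hconf4 : Conf β G m₄ := by
      intro f hf
      rw [hm₄, lintegral_smul_measure, lintegral_smul_measure, hconf3 f hf]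
    have hih := ih m₁ m₄ i₁ i₄ h₁ hconf4 E hE
    have h3E : m₃ E = c * m₄ E := by
      rw [hm₄, Measure.smul_apply, smul_eq_mul, ← mul_assoc,
        ENNReal.mul_inv_cancel hcne ENNReal.coe_ne_top, one_mul]
    have h2E : m₂ E = m₃ E + κ * m₁ E := by
      conv_lhs => rw [← hadd]
      rw [Measure.add_apply, Measure.smul_apply, smul_eq_mul]
    rw [h2E, h3E]
    have hcle : c ^ n ≤ 1 := pow_le_one₀ (zero_le) (by rw [hc]; exact tsub_le_self)
    have hcle' : c ^ (n + 1) ≤ 1 := pow_le_one₀ (zero_le) (by rw [hc]; exact tsub_le_self)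
    have harith : (1 - c ^ (n + 1) : ℝ≥0) = c * (1 - c ^ n) + κ := by
      rw [← NNReal.coe_inj]
      push_cast [NNReal.coe_sub hcle, NNReal.coe_sub hcle']
      have : (κ : ℝ) = 1 - c := by
        have := congrArg (fun z : ℝ≥0 => (z : ℝ)) hcκ
        simp only [NNReal.coe_add, NNReal.coe_one] at this
        linarith
      rw [this]; ring
    rw [harith]
    push_cast
    calc ((c : ℝ≥0∞) * (1 - (c : ℝ≥0∞) ^ n) + κ) * m₁ E
        = c * ((1 - (c : ℝ≥0∞) ^ n) * m₁ E) + κ * m₁ E := by ring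
      _ ≤ c * m₄ E + κ * m₁ E := by
          gcongr
          have e : ((1 - c ^ n : ℝ≥0) : ℝ≥0∞) = 1 - (c : ℝ≥0∞) ^ n := by push_cast; rfl
          rw [← e]
          exact hih

/-- **Uniqueness of conformal probability measures.** -/
theorem conf_unique {β : ℝ} (hβ : Irrational β) {G : UnitAddCircle → ℝ} {L : ℝ≥0}
    (hL : LipschitzWith L G)
    (m₁ m₂ : Measure UnitAddCircle) [i₁ : IsProbabilityMeasure m₁] [i₂ : IsProbabilityMeasure m₂]
    (h₁ : Conf β G m₁) (h₂ : Conf β G m₂) : m₁ = m₂ := by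
  have main : ∀ (m₁ m₂ : Measure UnitAddCircle), IsProbabilityMeasure m₁ →
      IsProbabilityMeasure m₂ → Conf β G m₁ → Conf β G m₂ → m₁ ≤ m₂ := by
    intro m₁ m₂ i₁ i₂ h₁ h₂
    set D : ℝ≥0 := 49 * Real.toNNReal (Real.exp (2 * L)) ^ 2 with hD
    have hexp : 1 ≤ Real.toNNReal (Real.exp (2 * L)) := by
      rw [Real.one_le_toNNReal]
      exact Real.one_le_exp (by positivity)
    have hD1 : 1 < D := by
      rw [hD]
      calc (1 : ℝ≥0) < 49 * 1 ^ 2 := by norm_num
        _ ≤ 49 * Real.toNNReal (Real.exp (2 * L)) ^ 2 := by gcongr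
    have hD0 : 0 < D := lt_trans zero_lt_one hD1
    have hκ : 49 * ENNReal.ofReal (Real.exp (2 * L)) ^ 2 = (((D⁻¹)⁻¹ : ℝ≥0) : ℝ≥0∞) := by
      rw [inv_inv, hD]
      push_cast
      rfl
    rw [Measure.le_iff]
    intro E hE
    have hall := fun n => induct hβ hL D⁻¹ (inv_pos.2 hD0) (inv_lt_one_of_one_lt₀ hD1) hκ n
      m₁ m₂ i₁ i₂ h₁ h₂ E hE
    have hlt : (1 - D⁻¹ : ℝ≥0) < 1 := tsub_lt_self zero_lt_one (inv_pos.2 hD0)
    have hlim : Tendsto (fun n : ℕ => (((1 - (1 - D⁻¹) ^ n : ℝ≥0) : ℝ≥0∞)) * m₁ E) atTop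
        (𝓝 ((((1 - 0 : ℝ≥0)) : ℝ≥0∞) * m₁ E)) := by
      apply ENNReal.Tendsto.mul_const
      · rw [ENNReal.tendsto_coe]
        exact Tendsto.const_sub _ (NNReal.tendsto_pow_atTop_nhds_zero_of_lt_one hlt)
      · left; simp
    have := le_of_tendsto hlim (Eventually.of_forall hall)
    simpa using this
  exact le_antisymm (main m₁ m₂ i₁ i₂ h₁ h₂) (main m₂ m₁ i₂ i₁ h₂ h₁)

end H61.QP
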